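import Mathlib

open Set Filter Topology Cardinal

namespace Pool.Agent.MP_353077_gt

/-- finitary monotone operator with countable values on finite sets -/
structure FinOp {α β : Type} (G : Set α → Set β) : Prop where
  mono : ∀ S T, S ⊆ T → G S ⊆ G T
  fin : ∀ S b, b ∈ G S → ∃ S0 : Finset α, ↑S0 ⊆ S ∧ b ∈ G S0
  cnt : ∀ S0 : Finset α, (G S0).Countable

variable {α β γ : Type}

theorem mk_finsets_le (S : Set α) {μ : Cardinal} (hμ : ℵ₀ ≤ μ) (hS : #S ≤ μ) :
    #{t : Finset α | ↑t ⊆ S} ≤ μ := by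
  classical
  have h1 : #{t : Finset α | ↑t ⊆ S} ≤ #(Finset S) := by
    refine mk_le_of_surjective (f := fun s : Finset S =>
      (⟨s.map (Function.Embedding.subtype _), ?_⟩ : {t : Finset α | ↑t ⊆ S})) ?_
    · intro x hx
      simp only [Finset.coe_map, mem_image] at hx
      obtain ⟨y, -, rfl⟩ := hx
      exact y.2
    · rintro ⟨t, ht⟩
      refine ⟨t.subtype (· ∈ S), Subtype.ext ?_⟩
      simp only
      rw [Finset.subtype_map]
      exact Finset.filter_true_of_mem fun x hx => ht hx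
  refine h1.trans ?_
  cases finite_or_infinite S with
  | inl h => exact (mk_le_aleph0).trans hμ
  | inr h => rw [mk_finset_of_infinite]; exact hS

theorem FinOp.card_le {G : Set α → Set β} (hG : FinOp G) {S : Set α} {μ : Cardinal}
    (hμ : ℵ₀ ≤ μ) (hS : #S ≤ μ) : #(G S) ≤ μ := by
  have h1 : G S ⊆ ⋃ t ∈ {t : Finset α | ↑t ⊆ S}, G t := by
    intro b hb
    obtain ⟨t, ht, hbt⟩ := hG.fin S b hb
    exact mem_iUnion₂.2 ⟨t, ht, hbt⟩
  refine (mk_le_mk_of_subset h1).trans ((mk_biUnion_le _ _).trans ?_)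
  refine (mul_le_mul' (mk_finsets_le S hμ hS) (ciSup_le' fun t => ?_)).trans
    (mul_eq_self hμ).le
  exact (le_aleph0_iff_set_countable.2 (hG.cnt _)).trans hμ

theorem FinOp.countable {G : Set α → Set β} (hG : FinOp G) {S : Set α} (hS : S.Countable) :
    (G S).Countable :=
  le_aleph0_iff_set_countable.1 (hG.card_le le_rfl (le_aleph0_iff_set_countable.2 hS))

theorem FinOp.fin_finset {G : Set α → Set β} (hG : FinOp G) (S : Set α) (t : Finset β)
    (ht : ↑t ⊆ G S) : ∃ S0 : Finset α, ↑S0 ⊆ S ∧ ↑t ⊆ G S0 := by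
  classical
  induction t using Finset.induction_on with
  | empty => exact ⟨∅, by simp, by simp⟩
  | insert b t hb ih =>
    rw [Finset.coe_insert, insert_subset_iff] at ht
    obtain ⟨S1, h1, h2⟩ := ih ht.2
    obtain ⟨S2, h3, h4⟩ := hG.fin S b ht.1
    refine ⟨S1 ∪ S2, by simp [h1, h3], ?_⟩
    rw [Finset.coe_insert, insert_subset_iff]
    exact ⟨hG.mono _ _ (by simp) h4, h2.trans (hG.mono _ _ (by simp))⟩

theorem FinOp.comp {G : Set α → Set β} {H : Set β → Set γ} (hH : FinOp H) (hG : FinOp G) :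
    FinOp (fun S => H (G S)) where
  mono S T h := hH.mono _ _ (hG.mono _ _ h)
  fin S c hc := by
    obtain ⟨t, ht, hc⟩ := hH.fin _ c hc
    obtain ⟨S0, h1, h2⟩ := hG.fin_finset S t ht
    exact ⟨S0, h1, hH.mono _ _ h2 hc⟩
  cnt S0 := hH.countable (hG.cnt S0)

theorem FinOp.union {G H : Set α → Set β} (hG : FinOp G) (hH : FinOp H) :
    FinOp (fun S => G S ∪ H S) where
  mono S T h := union_subset_union (hG.mono _ _ h) (hH.mono _ _ h)
  fin S b hb := by
    rcases hb with hb | hb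
    · obtain ⟨S0, h1, h2⟩ := hG.fin S b hb
      exact ⟨S0, h1, Or.inl h2⟩
    · obtain ⟨S0, h1, h2⟩ := hH.fin S b hb
      exact ⟨S0, h1, Or.inr h2⟩
  cnt S0 := (hG.cnt S0).union (hH.cnt S0)

theorem FinOp.insert (x : α) : FinOp (fun S : Set α => insert x S) where
  mono S T h := insert_subset_insert h
  fin S b hb := by
    rcases hb with rfl | hb
    · exact ⟨∅, by simp, by simp⟩
    · exact ⟨{b}, by simpa using hb, by simp⟩
  cnt S0 := S0.countable_toSet.insert x

theorem FinOp.biUnion (f : α → Set β) (hf : ∀ a, (f a).Countable) :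
    FinOp (fun S : Set α => ⋃ a ∈ S, f a) where
  mono S T h := biUnion_subset_biUnion_left h
  fin S b hb := by
    obtain ⟨a, ha, hb⟩ := mem_iUnion₂.1 hb
    exact ⟨{a}, by simpa using ha, by simpa using hb⟩
  cnt S0 := S0.countable_toSet.biUnion fun a _ => hf a

theorem FinOp.param {G : γ → Set α → Set β} (hG : ∀ c, FinOp (G c)) (f : α → Set γ)
    (hf : ∀ a, (f a).Countable) : FinOp (fun S : Set α => ⋃ a ∈ S, ⋃ c ∈ f a, G c S) where
  mono S T h := by
    intro b hb
    simp only [mem_iUnion] at hb ⊢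
    obtain ⟨a, ha, c, hc, hb⟩ := hb
    exact ⟨a, h ha, c, hc, (hG c).mono _ _ h hb⟩
  fin S b hb := by
    classical
    simp only [mem_iUnion] at hb ⊢
    obtain ⟨a, ha, c, hc, hb⟩ := hb
    obtain ⟨S0, h1, h2⟩ := (hG c).fin S b hb
    refine ⟨Insert.insert a S0, ?_, a, by simp, c, hc, (hG c).mono _ _ (by simp) h2⟩
    rw [Finset.coe_insert, insert_subset_iff]
    exact ⟨ha, h1⟩
  cnt S0 := S0.countable_toSet.biUnion fun a _ => (hf a).biUnion fun c _ => (hG c).cnt S0

theorem finset_subset_chain {I : Type} [LinearOrder I] {Φ : I → Set α} (hΦ : Monotone Φ)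
    {T : Set I} (hT : T.Nonempty) (t : Finset α) (ht : ↑t ⊆ ⋃ i ∈ T, Φ i) :
    ∃ i ∈ T, ↑t ⊆ Φ i := by
  classical
  induction t using Finset.induction_on with
  | empty => obtain ⟨i, hi⟩ := hT; exact ⟨i, hi, by simp⟩
  | insert b t hb ih =>
    rw [Finset.coe_insert, insert_subset_iff] at ht
    obtain ⟨i, hi, h1⟩ := ih ht.2
    obtain ⟨j, hj, h2⟩ := mem_iUnion₂.1 ht.1
    rcases le_total i j with h | h
    · refine ⟨j, hj, ?_⟩
      rw [Finset.coe_insert, insert_subset_iff]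
      exact ⟨h2, h1.trans (hΦ h)⟩
    · refine ⟨i, hi, ?_⟩
      rw [Finset.coe_insert, insert_subset_iff]
      exact ⟨hΦ h h2, h1⟩

theorem FinOp.chain {G : Set α → Set β} (hG : FinOp G) {I : Type} [LinearOrder I]
    {Φ : I → Set α} (hΦ : Monotone Φ) {T : Set I} (hT : T.Nonempty) {S : Set α}
    (hS : S ⊆ ⋃ i ∈ T, Φ i) {b : β} (hb : b ∈ G S) : ∃ i ∈ T, b ∈ G (Φ i) := by
  obtain ⟨t, ht, hb⟩ := hG.fin S b hb
  obtain ⟨i, hi, h⟩ := finset_subset_chain hΦ hT t (ht.trans hS)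
  exact ⟨i, hi, hG.mono _ _ h hb⟩

theorem FinOp.exists_fixed {F : Set α → Set α} (hF : FinOp F) :
    ∃ D : Set α, D.Countable ∧ F D = D := by
  let A : ℕ → Set α := fun n => F^[n] ∅
  have hs : ∀ n, A (n + 1) = F (A n) := fun n => Function.iterate_succ_apply' F n ∅
  have hmono : Monotone A := by
    refine monotone_nat_of_le_succ fun n => ?_
    induction n with
    | zero => exact empty_subset _
    | succ n ih => rw [hs (n + 1), hs n]; exact hF.mono _ _ (hs n ▸ ih)
  have hc : ∀ n, (A n).Countable := by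
    intro n
    induction n with
    | zero => exact countable_empty
    | succ n ih => rw [hs]; exact hF.countable ih
  refine ⟨⋃ n, A n, countable_iUnion hc, subset_antisymm ?_ ?_⟩
  · intro b hb
    obtain ⟨n, -, hn⟩ := hF.chain hmono (T := univ) univ_nonempty (by simp) hb
    exact mem_iUnion.2 ⟨n + 1, hs n ▸ hn⟩
  · refine iUnion_subset fun n => ?_
    refine (hmono (Nat.le_succ n)).trans ?_
    rw [hs]
    exact hF.mono _ _ (subset_iUnion A n)

theorem exists_skolem {δ : Type} (K : Set β) (S : δ → Set β) :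
    ∃ G : Set δ → Set β, FinOp G ∧ (∀ T, G T ⊆ K) ∧ ∀ T T' : Set δ, T' ⊆ T →
      (∀ t : Finset δ, ↑t ⊆ T' → (K ∩ ⋂ c ∈ t, S c).Nonempty) →
      ∃ U : Ultrafilter β, G T ∈ U ∧ ∀ c ∈ T', S c ∈ U := by
  classical
  let G : Set δ → Set β := fun T =>
    {b | ∃ t : Finset δ, ↑t ⊆ T ∧ ∃ h : (K ∩ ⋂ c ∈ t, S c).Nonempty, b = h.some}
  refine ⟨G, ⟨?_, ?_, ?_⟩, ?_, ?_⟩
  · rintro S T h b ⟨t, ht, hb⟩
    exact ⟨t, ht.trans h, hb⟩
  · rintro S b ⟨t, ht, hb⟩
    exact ⟨t, ht, t, subset_rfl, hb⟩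
  · intro S0
    have h1 : G S0 ⊆ ⋃ t ∈ S0.powerset,
        {b | ∃ h : (K ∩ ⋂ c ∈ t, S c).Nonempty, b = h.some} := by
      rintro b ⟨t, ht, hb⟩
      exact mem_biUnion (Finset.mem_powerset.2 (Finset.coe_subset.1 ht)) hb
    refine Countable.mono h1 (S0.powerset.countable_toSet.biUnion fun t _ => ?_)
    refine Set.Subsingleton.countable ?_
    rintro _ ⟨h, rfl⟩ _ ⟨h', rfl⟩
    rfl
  · rintro T b ⟨t, -, h, rfl⟩
    exact h.some_mem.1
  · intro T T' hT hne
    let J := {t : Finset δ // ↑t ⊆ T'}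
    let F : J → Filter β := fun t => 𝓟 (G T ∩ ⋂ c ∈ t.1, S c)
    have : Nonempty J := ⟨⟨∅, by simp⟩⟩
    have hdir : Directed (· ≥ ·) F := by
      intro s t
      refine ⟨⟨s.1 ∪ t.1, by simp [s.2, t.2]⟩, ?_, ?_⟩
      · refine principal_mono.2 (inter_subset_inter_right _ ?_)
        exact biInter_subset_biInter_left (by simp)
      · refine principal_mono.2 (inter_subset_inter_right _ ?_)
        exact biInter_subset_biInter_left (by simp)
    have hF : ∀ t, (F t).NeBot := fun t => principal_neBot_iff.2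
      ⟨(hne t.1 t.2).some, ⟨t.1, t.2.trans hT, _, rfl⟩, (hne t.1 t.2).some_mem.2⟩
    have : (iInf F).NeBot := iInf_neBot_of_directed' hdir hF
    obtain ⟨U, hU⟩ := Ultrafilter.exists_le (iInf F)
    have hUt : ∀ t : J, (G T ∩ ⋂ c ∈ t.1, S c) ∈ (U : Filter β) := fun t =>
      le_principal_iff.1 (hU.trans (iInf_le F t))
    refine ⟨U, mem_of_superset (hUt ⟨∅, by simp⟩) inter_subset_left, fun c hc => ?_⟩
    refine mem_of_superset (hUt ⟨{c}, by simpa using hc⟩) ?_
    intro b hb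
    simpa using hb.2

end Pool.Agent.MP_353077_gt
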