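import Pool.Agent.MP_353077_gt.UL
import Pool.Agent.MP_353077_gt.FinOp

open Set Filter Topology Cardinal

namespace Pool.Agent.MP_353077_gt

variable {X : Type} [TopologicalSpace X]

/-- a family of continuous functions that is Lindelof Sigma in the pointwise topology -/
def LS (Z : Set C(X, ℝ)) : Prop := UL ((fun f : C(X, ℝ) => (f : X → ℝ)) '' Z)

/-- the two points are not separated by the family -/
def Agree (Φ : Set C(X, ℝ)) (x y : X) : Prop := ∀ φ ∈ Φ, φ x = φ y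

/-- the family separates the points of the set -/
def Sep (Φ : Set C(X, ℝ)) (K : Set X) : Prop := ∀ x ∈ K, ∀ y ∈ K, Agree Φ x y → x = y

/-- every subset is split by a Lindelof Sigma family -/
def Split (X : Type) [TopologicalSpace X] : Prop :=
  ∀ A : Set X, ∃ Z : Set C(X, ℝ), LS Z ∧ ∀ x y, Agree Z x y → x ∈ A → y ∈ A

theorem Agree.refl (Φ : Set C(X, ℝ)) (x : X) : Agree Φ x x := fun _ _ => rfl

theorem Agree.symm {Φ : Set C(X, ℝ)} {x y : X} (h : Agree Φ x y) : Agree Φ y x :=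
  fun φ hφ => (h φ hφ).symm

theorem Agree.trans {Φ : Set C(X, ℝ)} {x y z : X} (h : Agree Φ x y) (h' : Agree Φ y z) :
    Agree Φ x z := fun φ hφ => (h φ hφ).trans (h' φ hφ)

theorem Agree.mono {Φ Ψ : Set C(X, ℝ)} {x y : X} (h : Agree Φ x y) (hs : Ψ ⊆ Φ) :
    Agree Ψ x y := fun φ hφ => h φ (hs hφ)

theorem isClosed_agree (Φ : Set C(X, ℝ)) : IsClosed {p : X × X | Agree Φ p.1 p.2} := by
  have : {p : X × X | Agree Φ p.1 p.2} = ⋂ φ ∈ Φ, {p : X × X | φ p.1 = φ p.2} := by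
    ext p; simp [Agree]
  rw [this]
  exact isClosed_biInter fun φ _ =>
    isClosed_eq (φ.continuous.comp continuous_fst) (φ.continuous.comp continuous_snd)

theorem LS.iUnion {ι : Type} [Countable ι] {Z : ι → Set C(X, ℝ)} (h : ∀ i, LS (Z i)) :
    LS (⋃ i, Z i) := by
  unfold LS
  rw [image_iUnion]
  exact UL.iUnion h

theorem LS.union {Z W : Set C(X, ℝ)} (hZ : LS Z) (hW : LS W) : LS (Z ∪ W) := by
  unfold LS
  rw [image_union]
  exact UL.union hZ hW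

theorem LS.empty : LS (∅ : Set C(X, ℝ)) := by
  unfold LS
  rw [image_empty]
  exact UL.empty

theorem eq_of_rat_boxes {β : Type} (U : Ultrafilter β) (f : β → ℝ) (a b : ℝ)
    (h : Tendsto f U (𝓝 a))
    (hb : ∀ p q : ℚ, (p : ℝ) < b → b < q → ∀ᶠ e in (U : Filter β), (p : ℝ) < f e ∧ f e < q) :
    a = b := by
  refine tendsto_nhds_unique h ?_
  rw [(nhds_basis_Ioo b).tendsto_right_iff]
  rintro ⟨l, u⟩ ⟨h1, h2⟩
  obtain ⟨p, hp1, hp2⟩ := exists_rat_btwn h1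
  obtain ⟨q, hq1, hq2⟩ := exists_rat_btwn h2
  filter_upwards [hb p q hp2 hq1] with e he
  exact ⟨hp1.trans he.1, he.2.trans hq2⟩

theorem LS.exists_sigma {Z : Set C(X, ℝ)} (hZ : LS Z) :
    ∃ σ : Set X → Set C(X, ℝ), FinOp σ ∧ ∀ D : Set X, ∀ x ∈ closure D, ∀ y ∈ closure D,
      Agree (σ D) x y → Agree Z x y := by
  classical
  obtain ⟨ι, hι, N, hN⟩ := hZ
  let S : ι ⊕ (X × ℚ × ℚ) → Set C(X, ℝ) := Sum.elim (fun i => {φ | (φ : X → ℝ) ∈ N i})
    (fun c => {φ | (c.2.1 : ℝ) < φ c.1 ∧ φ c.1 < c.2.2})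
  obtain ⟨G, hG, hGZ, hGU⟩ := exists_skolem Z S
  let T : Set X → Set (ι ⊕ (X × ℚ × ℚ)) := fun D =>
    range Sum.inl ∪ ⋃ d ∈ D, range (fun pq : ℚ × ℚ => Sum.inr (d, pq))
  have hT : FinOp T := by
    refine FinOp.union ⟨fun _ _ _ => subset_rfl, fun S b hb => ⟨∅, by simp, hb⟩,
      fun _ => countable_range _⟩ (FinOp.biUnion _ fun d => countable_range _)
  refine ⟨fun D => G (T D), hG.comp hT, fun D x hx y hy hxy g hg => ?_⟩
  obtain ⟨U, hU1, hU2⟩ := hGU (T D) {c ∈ T D | g ∈ S c} (sep_subset _ _)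
    (fun t ht => ⟨g, hg, mem_iInter₂.2 fun c hc => (ht hc).2⟩)
  obtain ⟨_, ⟨h, hh, rfl⟩, hlim⟩ := hN g ⟨g, hg, rfl⟩ (U.map fun f : C(X, ℝ) => (f : X → ℝ))
    (fun i hi => hU2 (Sum.inl i) ⟨Or.inl ⟨i, rfl⟩, hi⟩)
  have hev : ∀ p : X, Tendsto (fun φ : C(X, ℝ) => φ p) U (𝓝 (h p)) := fun p =>
    ((continuous_apply p).tendsto _).comp hlim
  have h1 : EqOn h g D := by
    intro d hd
    refine eq_of_rat_boxes U _ _ _ (hev d) fun p q hp hq => ?_
    exact hU2 (Sum.inr (d, p, q)) ⟨Or.inr (mem_iUnion₂.2 ⟨d, hd, (p, q), rfl⟩), hp, hq⟩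
  have h2 : EqOn h g (closure D) := h1.closure h.continuous g.continuous
  rw [← h2 hx, ← h2 hy]
  refine tendsto_nhds_unique (hev x) ((hev y).congr' ?_)
  exact mem_of_superset hU1 fun φ hφ => (hxy φ hφ).symm

theorem exists_tau [CompactSpace X] (A : Set X) :
    ∃ τ : Set C(X, ℝ) → Set X, FinOp τ ∧ (∀ Φ, τ Φ ⊆ A) ∧ ∀ Φ, ∀ x ∈ closure A,
      ∃ z ∈ closure (τ Φ), Agree Φ z x := by
  classical
  let S : C(X, ℝ) × ℚ × ℚ → Set X := fun c => {x | (c.2.1 : ℝ) < c.1 x ∧ c.1 x < c.2.2}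
  have hS : ∀ c, IsOpen (S c) := fun c =>
    (isOpen_lt continuous_const c.1.continuous).inter (isOpen_lt c.1.continuous continuous_const)
  obtain ⟨G, hG, hGA, hGU⟩ := exists_skolem A S
  let T : Set C(X, ℝ) → Set (C(X, ℝ) × ℚ × ℚ) := fun Φ =>
    ⋃ φ ∈ Φ, range (fun pq : ℚ × ℚ => (φ, pq))
  have hT : FinOp T := FinOp.biUnion _ fun d => countable_range _
  refine ⟨fun Φ => G (T Φ), hG.comp hT, fun Φ => hGA _, fun Φ x hx => ?_⟩
  obtain ⟨U, hU1, hU2⟩ := hGU (T Φ) {c ∈ T Φ | x ∈ S c} (sep_subset _ _) (fun t ht => by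
    have ho : IsOpen (⋂ c ∈ t, S c) := isOpen_biInter_finset fun c _ => hS c
    obtain ⟨y, hy1, hy2⟩ := mem_closure_iff.1 hx _ ho (mem_iInter₂.2 fun c hc => (ht hc).2)
    exact ⟨y, hy2, hy1⟩)
  obtain ⟨z, -, hz⟩ := isCompact_univ.ultrafilter_le_nhds U (by simp)
  refine ⟨z, mem_closure_iff_ultrafilter.2 ⟨U, hU1, hz⟩, fun φ hφ => ?_⟩
  refine eq_of_rat_boxes U φ _ _ ((φ.continuous.tendsto z).mono_left hz) fun p q hp hq => ?_
  exact hU2 (φ, p, q) ⟨mem_iUnion₂.2 ⟨φ, hφ, (p, q), rfl⟩, hp, hq⟩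

variable [CompactSpace X] [T2Space X]

/-- countable tightness, with a countable family isolating the point -/
theorem Split.tight' (hX : Split X) {A : Set X} {x : X} (hx : x ∈ closure A) :
    ∃ D : Set X, D.Countable ∧ D ⊆ A ∧ x ∈ closure D ∧ ∃ Φ : Set C(X, ℝ), Φ.Countable ∧
      ∀ z ∈ closure D, Agree Φ z x → z = x := by
  obtain ⟨Z, hZ, hZx⟩ := hX {x}
  obtain ⟨σ, hσ, hσs⟩ := hZ.exists_sigma
  obtain ⟨τ, hτ, hτA, hτs⟩ := exists_tau A
  obtain ⟨D, hDc, hD⟩ := (hτ.comp (hσ.comp (FinOp.insert x))).exists_fixed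
  have key : ∀ z ∈ closure D, Agree (σ (insert x D)) z x → z = x := fun z hz h =>
    hZx x z (hσs (insert x D) z (closure_mono (subset_insert _ _) hz) x
      (subset_closure (mem_insert _ _)) h).symm rfl
  refine ⟨D, hDc, hD ▸ hτA _, ?_, σ (insert x D), hσ.countable (hDc.insert x), key⟩
  obtain ⟨z, hz, hzx⟩ := hτs (σ (insert x D)) x hx
  rw [hD] at hz
  exact key z hz hzx ▸ hz

theorem Split.tight (hX : Split X) {A : Set X} {x : X} (hx : x ∈ closure A) :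
    ∃ D : Set X, D.Countable ∧ D ⊆ A ∧ x ∈ closure D := by
  obtain ⟨D, h1, h2, h3, -⟩ := hX.tight' hx
  exact ⟨D, h1, h2, h3⟩

theorem Split.seq (hX : Split X) {A : Set X} {x : X} (hx : x ∈ closure A) :
    ∃ u : ℕ → X, (∀ n, u n ∈ A) ∧ Tendsto u atTop (𝓝 x) := by
  obtain ⟨D, hDc, hDA, hxD, Φ, hΦc, hΦ⟩ := hX.tight' hx
  obtain ⟨e, he⟩ : ∃ e : ℕ → C(X, ℝ), Φ ⊆ range e := by
    obtain ⟨e, he⟩ := (hΦc.insert 0).exists_eq_range (insert_nonempty _ _)
    exact ⟨e, he ▸ subset_insert _ _⟩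
  have h1 : ∀ n : ℕ, ∃ d ∈ D, ∀ k ≤ n, |e k d - e k x| < 1 / ((n : ℝ) + 1) := by
    intro n
    have ho : IsOpen (⋂ k ∈ Finset.range (n + 1), {d | |e k d - e k x| < 1 / ((n : ℝ) + 1)}) :=
      isOpen_biInter_finset fun k _ =>
        isOpen_lt ((e k).continuous.sub continuous_const).abs continuous_const
    obtain ⟨d, hd1, hd2⟩ := mem_closure_iff.1 hxD _ ho (mem_iInter₂.2 fun k _ => by
      simp only [mem_setOf_eq, sub_self, abs_zero]; positivity)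
    exact ⟨d, hd2, fun k hk => mem_iInter₂.1 hd1 k (Finset.mem_range.2 (Nat.lt_succ_of_le hk))⟩
  choose u hu hu' using h1
  refine ⟨u, fun n => hDA (hu n), ?_⟩
  refine isClosed_closure.isCompact.tendsto_nhds_of_unique_mapClusterPt
    (Eventually.of_forall fun n => subset_closure (hu n)) fun z hz hcl => hΦ z hz ?_
  intro φ hφ
  obtain ⟨k, rfl⟩ := he hφ
  have h2 : Tendsto (fun n => e k (u n)) atTop (𝓝 (e k x)) := by
    rw [tendsto_iff_dist_tendsto_zero]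
    refine squeeze_zero' (Eventually.of_forall fun _ => dist_nonneg) ?_
      tendsto_one_div_add_atTop_nhds_zero_nat
    filter_upwards [eventually_ge_atTop k] with n hn
    exact (hu' n k hn).le
  have h3 : MapClusterPt (e k z) atTop (fun n => e k (u n)) :=
    hcl.tendsto_comp ((e k).continuous.tendsto z)
  exact eq_of_nhds_neBot (h3.clusterPt.mono h2)

theorem Split.card_closure (hX : Split X) (D : Set X) : #(closure D) ≤ #D ^ ℵ₀ := by
  have h1 : ∀ x : closure D, ∃ u : ℕ → D, Tendsto (fun n => (u n : X)) atTop (𝓝 x) := by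
    intro x
    obtain ⟨u, hu, h⟩ := hX.seq x.2
    exact ⟨fun n => ⟨u n, hu n⟩, h⟩
  choose u hu using h1
  have h2 : Function.Injective u := by
    intro x y hxy
    refine Subtype.ext (tendsto_nhds_unique (hu x) ?_)
    rw [hxy]; exact hu y
  simpa [mk_arrow] using mk_le_of_injective h2

/-- monolithicity -/
theorem Split.mono (hX : Split X) (D : Set X) {μ : Cardinal} (hμ : ℵ₀ ≤ μ) (hD : #D ≤ μ) :
    ∃ Φ : Set C(X, ℝ), #Φ ≤ μ ∧ Sep Φ (closure D) := by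
  obtain ⟨W, rfl⟩ : ∃ W : Type, #W = μ := ⟨μ.out, mk_out μ⟩
  have h1 : #(closure D) ≤ #(Set W) := by
    refine (hX.card_closure D).trans ?_
    rw [mk_set]
    calc #D ^ ℵ₀ ≤ (2 ^ #W) ^ ℵ₀ := power_le_power_right (hD.trans (cantor _).le)
      _ = 2 ^ (#W * ℵ₀) := by rw [← power_mul]
      _ = 2 ^ #W := by rw [mul_aleph0_eq hμ]
  obtain ⟨e⟩ := (Cardinal.le_def _ _).1 h1
  choose Z hZ hZs using hX
  choose σ hσ hσs using fun A => (hZ A).exists_sigma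
  let A : W → Set X := fun w => {x | ∃ h : x ∈ closure D, w ∈ e ⟨x, h⟩}
  refine ⟨⋃ w, σ (A w) D, ?_, fun x hx y hy hxy => ?_⟩
  · refine (mk_iUnion_le _).trans ((mul_le_mul' le_rfl (ciSup_le' fun w => ?_)).trans
      (mul_eq_self hμ).le)
    exact (hσ _).card_le hμ hD
  · have h2 : ∀ w, Agree (Z (A w)) x y := fun w =>
      hσs (A w) D x hx y hy (hxy.mono (subset_iUnion (fun w => σ (A w) D) w))
    have h3 : e ⟨x, hx⟩ = e ⟨y, hy⟩ := by
      ext w
      constructor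
      · intro h
        obtain ⟨_, h'⟩ := hZs _ x y (h2 w) ⟨hx, h⟩
        exact h'
      · intro h
        obtain ⟨_, h'⟩ := hZs _ y x (h2 w).symm ⟨hy, h⟩
        exact h'
    exact congrArg Subtype.val (e.injective h3)

end Pool.Agent.MP_353077_gt
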