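import Pool.Agent.MP_353077_gt.Game

open Set Filter Topology Cardinal

namespace Pool.Agent.MP_353077_gt

section Order

variable {I : Type} [LinearOrder I]

/-- limit point of the index order -/
def IsLim (δ : I) : Prop := (∃ i, i < δ) ∧ ∀ i < δ, ∃ j, i < j ∧ j < δ

/-- every countable set has a strict upper bound -/
def Bd (I : Type) [LinearOrder I] : Prop := ∀ S : Set I, S.Countable → ∃ b, ∀ i ∈ S, i < b

theorem Bd.nonempty (h : Bd I) : Nonempty I := by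
  obtain ⟨b, -⟩ := h ∅ countable_empty
  exact ⟨b⟩

variable [WellFoundedLT I]

theorem Bd.exists_nxt (h : Bd I) : ∃ nxt : I → I, ∀ i j, nxt i ≤ j ↔ i < j := by
  have h1 : ∀ i : I, (Ioi i).Nonempty := fun i => by
    obtain ⟨b, hb⟩ := h {i} (countable_singleton i)
    exact ⟨b, hb i rfl⟩
  refine ⟨fun i => wellFounded_lt.min (Ioi i) (h1 i), fun i j => ⟨fun hj => ?_, fun hj => ?_⟩⟩
  · exact lt_of_lt_of_le (wellFounded_lt.min_mem (Ioi i) (h1 i)) hj
  · exact not_lt.1 (wellFounded_lt.not_lt_min (Ioi i) hj)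

theorem Bd.club (h : Bd I) (R : I → I → Prop) (hR : ∀ i, ∃ j, R i j)
    (hm : ∀ i i' j j', i' ≤ i → j ≤ j' → R i j → R i' j') (a : I) :
    ∃ δ, a < δ ∧ IsLim δ ∧ ∀ i < δ, ∃ j < δ, R i j := by
  have h1 : ∀ i, ∃ j, i < j ∧ R i j := fun i => by
    obtain ⟨j, hj⟩ := hR i
    obtain ⟨b, hb⟩ := h {i, j} (by simp)
    exact ⟨b, hb i (by simp), hm i i j b le_rfl (hb j (by simp)).le hj⟩
  choose f hf hfR using h1
  let u : ℕ → I := fun n => f^[n] a
  have hu : ∀ n, u (n + 1) = f (u n) := fun n => Function.iterate_succ_apply' f n a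
  have hne : {b | ∀ n, u n < b}.Nonempty := by
    obtain ⟨b, hb⟩ := h (range u) (countable_range u)
    exact ⟨b, fun n => hb _ ⟨n, rfl⟩⟩
  let δ := wellFounded_lt.min _ hne
  have hδ : ∀ n, u n < δ := wellFounded_lt.min_mem _ hne
  have hδ' : ∀ i < δ, ∃ n, i ≤ u n := fun i hi => by
    by_contra hc
    push Not at hc
    exact wellFounded_lt.not_lt_min {b | ∀ n, u n < b} hc hi
  refine ⟨δ, hδ 0, ⟨⟨a, hδ 0⟩, fun i hi => ?_⟩, fun i hi => ?_⟩
  · obtain ⟨n, hn⟩ := hδ' i hi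
    exact ⟨u (n + 1), hn.trans_lt (hu n ▸ hf _), hδ _⟩
  · obtain ⟨n, hn⟩ := hδ' i hi
    exact ⟨u (n + 1), hδ _, hm _ _ _ _ hn le_rfl (hu n ▸ hfR _)⟩

theorem exists_type_colouring {X : Type} (J : X → Set I) :
    ∃ A : ℕ × ℕ → Set X, ∀ y y', (J y).Countable → (J y').Countable →
      (∀ c, y' ∈ A c → y ∈ A c) → J y ⊆ J y' → ∀ i ∈ J y', ∃ j ∈ J y, i ≤ j := by
  classical
  have h1 : ∀ x, ∃ e : I → ℕ, (J x).Countable → InjOn e (J x) := fun x => by
    by_cases h : (J x).Countable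
    · obtain ⟨e, he⟩ := countable_iff_exists_injOn.1 h
      exact ⟨e, fun _ => he⟩
    · exact ⟨fun _ => 0, fun h' => (h h').elim⟩
  choose e he using h1
  refine ⟨fun c => {x | ∃ a ∈ J x, ∃ b ∈ J x, e x a = c.1 ∧ e x b = c.2 ∧ a ≤ b},
    fun y y' hy hy' hA hJ i hi => ?_⟩
  have h2 : ∀ a : J y', ∃ b : J y', b.1 ∈ J y ∧ e y b = e y' a := fun a => by
    obtain ⟨b, hb, -, -, h, -⟩ := hA (e y' a, e y' a) ⟨a, a.2, a, a.2, rfl, rfl, le_rfl⟩
    exact ⟨⟨b, hJ hb⟩, hb, h⟩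
  choose f hf hfe using h2
  have h3 : StrictMono f := by
    intro a b hab
    obtain ⟨a', ha', b', hb', h4, h5, h6⟩ :=
      hA (e y' a, e y' b) ⟨a, a.2, b, b.2, rfl, rfl, le_of_lt hab⟩
    have h7 : a' = f a := he y hy ha' (hf a) (h4.trans (hfe a).symm)
    have h8 : b' = f b := he y hy hb' (hf b) (h5.trans (hfe b).symm)
    refine lt_of_le_of_ne (show (f a).1 ≤ (f b).1 from h7 ▸ h8 ▸ h6) fun h9 => ?_
    have h10 : e y' a = e y' b := by rw [← hfe, ← hfe, h9]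
    exact hab.ne (Subtype.ext (he y' hy' a.2 b.2 h10))
  exact ⟨f ⟨i, hi⟩, hf _, h3.le_apply (x := ⟨i, hi⟩)⟩

end Order

variable {X : Type} [TopologicalSpace X]

/-- the data used to approximate a closed set -/
structure Tau (K : Set X) (τ : Set C(X, ℝ) → Set X) : Prop where
  closed : IsClosed K
  fin : FinOp τ
  sub : ∀ Ψ, τ Ψ ⊆ K
  approx : ∀ Ψ, ∀ x ∈ K, ∃ z ∈ closure (τ Ψ), Agree Ψ z x

theorem exists_Tau [CompactSpace X] {K : Set X} (hK : IsClosed K) : ∃ τ, Tau K τ := by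
  obtain ⟨τ, h1, h2, h3⟩ := exists_tau K
  exact ⟨τ, hK, h1, h2, fun Ψ x hx => h3 Ψ x (subset_closure hx)⟩

theorem Tau.closure_sub {K : Set X} {τ : Set C(X, ℝ) → Set X} (h : Tau K τ) (Ψ : Set C(X, ℝ)) :
    closure (τ Ψ) ⊆ K := closure_minimal (h.sub Ψ) h.closed

theorem Tau.closure_mono {K : Set X} {τ : Set C(X, ℝ) → Set X} (h : Tau K τ)
    {Ψ Ψ' : Set C(X, ℝ)} (hs : Ψ ⊆ Ψ') : closure (τ Ψ) ⊆ closure (τ Ψ') :=
  _root_.closure_mono (h.fin.mono _ _ hs)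

/-- a continuous chain of good families -/
structure Chain (K : Set X) (τ : Set C(X, ℝ) → Set X) {I : Type} [LinearOrder I]
    (Φ : I → Set C(X, ℝ)) (nxt : I → I) : Prop where
  split : Split X
  tau : Tau K τ
  bd : Bd I
  hn : ∀ i j, nxt i ≤ j ↔ i < j
  mono : Monotone Φ
  cont : ∀ δ, IsLim δ → Φ δ ⊆ ⋃ i ∈ Iio δ, Φ i
  good : ∀ i, Sep (Φ i) (closure (τ (Φ i)))
  cov : ∀ x ∈ K, ∃ i, x ∈ closure (τ (Φ i))

/-- points whose shadow does not move at the index -/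
def Stay (τ : Set C(X, ℝ) → Set X) {I : Type} (Φ : I → Set C(X, ℝ)) (nxt : I → I) (i : I) :
    Set X := {x | ∃ z ∈ closure (τ (Φ i)), Agree (Φ (nxt i)) z x}

variable [CompactSpace X] [T2Space X]

theorem isClosed_shadow_fst {A : Set X} (hA : IsClosed A) (Ψ : Set C(X, ℝ)) :
    IsClosed {x | ∃ z ∈ A, Agree Ψ z x} := by
  have h1 : IsClosed ({p : X × X | p.1 ∈ A} ∩ {p : X × X | Agree Ψ p.1 p.2}) :=
    (hA.preimage continuous_fst).inter (isClosed_agree Ψ)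
  have h2 := (h1.isCompact.image continuous_snd).isClosed
  convert h2 using 1
  ext x
  constructor
  · rintro ⟨z, hz, h⟩
    exact ⟨(z, x), ⟨hz, h⟩, rfl⟩
  · rintro ⟨p, hp, rfl⟩
    exact ⟨p.1, hp.1, hp.2⟩

variable {K : Set X} {τ : Set C(X, ℝ) → Set X} {I : Type} [LinearOrder I] [WellFoundedLT I]
  {Φ : I → Set C(X, ℝ)} {nxt : I → I}

theorem Chain.xmono (h : Chain K τ Φ nxt) {i j : I} (hij : i ≤ j) :
    closure (τ (Φ i)) ⊆ closure (τ (Φ j)) := h.tau.closure_mono (h.mono hij)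

theorem Chain.stay_of_mem (h : Chain K τ Φ nxt) {x : X} {δ i : I} (hx : x ∈ closure (τ (Φ δ)))
    (hi : δ ≤ i) : x ∈ Stay τ Φ nxt i := ⟨x, h.xmono hi hx, Agree.refl _ _⟩

theorem Chain.bounded (h : Chain K τ Φ nxt) {D : Set X} (hD : D.Countable) (hK : D ⊆ K) :
    ∃ δ, D ⊆ closure (τ (Φ δ)) := by
  have := h.bd.nonempty
  choose! f hf using h.cov
  obtain ⟨b, hb⟩ := h.bd (f '' D) (hD.image f)
  exact ⟨b, fun x hx => h.xmono (hb _ ⟨x, hx, rfl⟩).le (hf x (hK hx))⟩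

theorem Chain.jump_countable (h : Chain K τ Φ nxt) {x : X} (hx : x ∈ K) :
    {i | x ∉ Stay τ Φ nxt i}.Countable := by
  set J := {i | x ∉ Stay τ Φ nxt i} with hJ
  by_contra hc
  obtain ⟨i0, hi0⟩ := h.cov x hx
  have hne : {β | ¬ (J ∩ Iio β).Countable}.Nonempty := by
    refine ⟨i0, fun hcc => hc (Countable.mono (fun i hi => mem_inter hi ?_) hcc)⟩
    by_contra hlt
    exact hi (h.stay_of_mem hi0 (not_lt.1 hlt))
  let β := wellFounded_lt.min _ hne
  have hβ : ¬ (J ∩ Iio β).Countable := wellFounded_lt.min_mem _ hne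
  have hβ' : ∀ i < β, (J ∩ Iio i).Countable := fun i hi => by
    by_contra hcc
    exact wellFounded_lt.not_lt_min {β | ¬ (J ∩ Iio β).Countable} hcc hi
  have hnext : ∀ i < β, ∃ j ∈ J, i < j ∧ j < β := fun i hi => by
    by_contra hcc
    push Not at hcc
    refine hβ (((hβ' i hi).insert i).mono fun j hj => ?_)
    rcases lt_trichotomy j i with h1 | h1 | h1
    · exact Or.inr ⟨hj.1, h1⟩
    · exact Or.inl h1
    · exact absurd hj.2 (not_lt.2 (hcc j hj.1 h1))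
  have hβne : (Iio β).Nonempty := by
    by_contra hcc
    rw [not_nonempty_iff_eq_empty] at hcc
    exact hβ (by simp [hcc])
  have hlim : IsLim β := ⟨hβne, fun i hi => by
    obtain ⟨j, -, h1, h2⟩ := hnext i hi
    exact ⟨j, h1, h2⟩⟩
  obtain ⟨z, hz, hzx⟩ := h.tau.approx (Φ β) x hx
  obtain ⟨B, hBc, hB, hzB⟩ := h.split.tight hz
  have h1 : ∀ b ∈ B, ∃ i ∈ Iio β, b ∈ τ (Φ i) := fun b hb =>
    h.tau.fin.chain h.mono hβne (h.cont β hlim) (hB hb)
  have := h.bd.nonempty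
  choose! f hf hfb using h1
  have h2 : ∃ γ < β, ∀ b ∈ B, f b ≤ γ := by
    by_contra hcc
    push Not at hcc
    refine hβ ((hBc.biUnion fun b hb => hβ' (f b) (hf b hb)).mono fun j hj => ?_)
    obtain ⟨b, hb, hjb⟩ := hcc j hj.2
    exact mem_iUnion₂.2 ⟨b, hb, hj.1, hjb⟩
  obtain ⟨γ, hγ, hγb⟩ := h2
  obtain ⟨j, hjJ, hγj, hjβ⟩ := hnext γ hγ
  refine hjJ ⟨z, closure_mono (fun b hb => ?_) hzB, hzx.mono (h.mono ((h.hn _ _).2 hjβ))⟩
  exact h.tau.fin.mono _ _ (h.mono ((hγb b hb).trans hγj.le)) (hfb b hb)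

theorem Chain.exists_jump (h : Chain K τ Φ nxt) {x : X} (hx : x ∈ K) {δ : I}
    (hδ : x ∉ closure (τ (Φ δ))) : ∃ i, δ ≤ i ∧ x ∉ Stay τ Φ nxt i := by
  by_contra hc
  push Not at hc
  obtain ⟨z, hz, hzx⟩ := h.tau.approx (Φ δ) x hx
  have key : ∀ j, Agree (Φ j) z x := by
    intro j
    induction j using WellFoundedLT.induction with
    | ind j ih =>
      rcases le_or_gt j δ with hj | hj
      · exact hzx.mono (h.mono hj)
      · by_cases hl : IsLim j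
        · intro φ hφ
          obtain ⟨i, hi, hφi⟩ := mem_iUnion₂.1 (h.cont j hl hφ)
          exact ih i hi φ hφi
        · have h1 : ∃ i < j, ∀ k, i < k → j ≤ k := by
            by_contra hcc
            push Not at hcc
            exact hl ⟨⟨δ, hj⟩, hcc⟩
          obtain ⟨i, hi, hik⟩ := h1
          have hδi : δ ≤ i := by
            by_contra hcc
            exact absurd (hik δ (not_le.1 hcc)) (not_le.2 hj)
          have hji : j ≤ nxt i := hik _ ((h.hn _ _).1 le_rfl)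
          obtain ⟨z', hz', hz'x⟩ := hc i hδi
          have h2 : z = z' := h.good i z (h.xmono hδi hz) z' hz'
            ((ih i hi).trans (hz'x.mono (h.mono ((h.hn _ _).1 le_rfl).le)).symm)
          exact h2 ▸ hz'x.mono (h.mono hji)
  obtain ⟨j, hj⟩ := h.cov x hx
  have h3 : z = x := h.good (max j δ) z (h.xmono (le_max_right _ _) hz) x
    (h.xmono (le_max_left _ _) hj) (key _)
  exact hδ (h3 ▸ hz)

theorem Chain.win (h : Chain K τ Φ nxt) (hw : ∀ i, Win (closure (τ (Φ i))))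
    (hkey : ∀ L, IsClosed L → L ⊆ K → (∀ i, ¬ L ⊆ closure (τ (Φ i))) →
      ∃ y ∈ L, ∃ y' ∈ L, ∃ δ, y ∈ closure (τ (Φ δ)) ∧ y' ∉ closure (τ (Φ δ)) ∧
        ∀ i, y' ∈ Stay τ Φ nxt i → y ∈ Stay τ Φ nxt i) : Win K := by
  obtain ⟨A, hA⟩ := exists_type_colouring (fun x : X => {i | x ∉ Stay τ Φ nxt i})
  refine Win.step A fun L hL hLK hm => ?_
  by_contra hc
  obtain ⟨y, hy, y', hy', δ, h1, h2, h3⟩ := hkey L hL hLK fun i hi => hc ((hw i).mono hi)
  obtain ⟨i, hδi, hi⟩ := h.exists_jump (hLK hy') h2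
  obtain ⟨j, hj, hij⟩ := hA y y' (h.jump_countable (hLK hy)) (h.jump_countable (hLK hy'))
    (fun c => hm c y' hy' y hy) (fun k hk hk' => hk (h3 k hk')) i hi
  exact hj (h.stay_of_mem h1 (hδi.trans hij))

theorem Chain.win_reg (h : Chain K τ Φ nxt) (hw : ∀ i, Win (closure (τ (Φ i))))
    (hreg : ∀ i, ∀ S : Set I, #S ≤ max #(Φ i) ℵ₀ → ∃ b, ∀ j ∈ S, j ≤ b) : Win K := by
  refine h.win hw fun L hL hLK hunb => ?_
  obtain ⟨τL, hτL⟩ := exists_Tau hL
  have := h.bd.nonempty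
  choose! f hf using h.cov
  obtain ⟨a, -⟩ := h.bd ∅ countable_empty
  obtain ⟨δ, -, hlim, hδ⟩ := h.bd.club (fun i j => τL (Φ i) ⊆ closure (τ (Φ j))) (fun i => by
      obtain ⟨b, hb⟩ := hreg i (f '' τL (Φ i)) (mk_image_le.trans
        (hτL.fin.card_le (le_max_right _ _) (le_max_left _ _)))
      exact ⟨b, fun x hx => h.xmono (hb _ ⟨x, hx, rfl⟩) (hf x (hLK (hτL.sub _ hx)))⟩)
    (fun i i' j j' hi hj hR => (hτL.fin.mono _ _ (h.mono hi)).trans (hR.trans (h.xmono hj))) a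
  have h1 : τL (Φ δ) ⊆ closure (τ (Φ δ)) := fun b hb => by
    obtain ⟨i, hi, hbi⟩ := hτL.fin.chain h.mono hlim.1 (h.cont δ hlim) hb
    obtain ⟨j, hj, hR⟩ := hδ i hi
    exact h.xmono hj.le (hR hbi)
  obtain ⟨y', hy', hy'δ⟩ := not_subset.1 (hunb δ)
  obtain ⟨y, hy, hyy'⟩ := hτL.approx (Φ δ) y' hy'
  have hyδ : y ∈ closure (τ (Φ δ)) := closure_minimal h1 isClosed_closure hy
  refine ⟨y, hτL.closure_sub _ hy, y', hy', δ, hyδ, hy'δ, fun i hi => ?_⟩
  rcases le_or_gt δ i with hδi | hδi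
  · exact h.stay_of_mem hyδ hδi
  · obtain ⟨z, hz, hzy⟩ := hi
    exact ⟨z, hz, hzy.trans (hyy'.mono (h.mono ((h.hn _ _).2 hδi))).symm⟩

theorem Chain.win_sing (h : Chain K τ Φ nxt) (hw : ∀ i, Win (closure (τ (Φ i))))
    (hsing : ∀ y : I → X, (∀ i, y i ∈ K) → Win (closure (range y))) : Win K := by
  refine h.win hw fun L hL hLK hunb => ?_
  choose y hyL hy using fun i => not_subset.1 (hunb i)
  let K' := closure (range y)
  have hK'L : K' ⊆ L := closure_minimal (range_subset_iff.2 hyL) hL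
  obtain ⟨Z, hZ, hZs⟩ := (hsing y fun i => hLK (hyL i)).exists_LS h.split isClosed_closure
  obtain ⟨σ, hσ, hσs⟩ := hZ.exists_sigma
  obtain ⟨τ0, hτ0⟩ := exists_Tau (K := K') isClosed_closure
  have hst : ∀ i, IsClosed (Stay τ Φ nxt i) := fun i => isClosed_shadow_fst isClosed_closure _
  choose τs hτs using fun i => exists_Tau (K := K' ∩ Stay τ Φ nxt i)
    (isClosed_closure.inter (hst i))
  let J : X → Set I := fun x => {i | x ∈ K ∧ x ∉ Stay τ Φ nxt i}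
  have hJ : ∀ x, (J x).Countable := fun x => by
    by_cases hx : x ∈ K
    · exact (h.jump_countable hx).mono fun i hi => hi.2
    · exact countable_empty.mono fun i hi => hx hi.1
  obtain ⟨D, hDc, hD⟩ := ((hτ0.fin.comp hσ).union
    (FinOp.param (fun i => (hτs i).fin.comp hσ) J hJ)).exists_fixed
  have hDK' : D ⊆ K' := by
    rw [← hD]
    refine union_subset (hτ0.sub _) (iUnion₂_subset fun a _ => iUnion₂_subset fun i _ => ?_)
    exact ((hτs i).sub _).trans inter_subset_left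
  have hDK : closure D ⊆ K' := closure_minimal hDK' isClosed_closure
  obtain ⟨δ, hδ⟩ := h.bounded hDc (hDK'.trans (hK'L.trans hLK))
  have hy' : y δ ∈ K' := subset_closure ⟨δ, rfl⟩
  obtain ⟨z, hz, hzy⟩ := hτ0.approx (σ D) (y δ) hy'
  have hzD : z ∈ closure D := closure_mono (by
    conv_rhs => rw [← hD]
    exact subset_union_left) hz
  refine ⟨z, hK'L (hDK hzD), y δ, hyL δ, δ, closure_minimal hδ isClosed_closure hzD, hy δ,
    fun i hi => ?_⟩
  by_cases hc : ∃ d ∈ D, i ∈ J d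
  · obtain ⟨d, hd, hdi⟩ := hc
    obtain ⟨w, hw, hwy⟩ := (hτs i).approx (σ D) (y δ) ⟨hy', hi⟩
    have hwD : w ∈ closure D := closure_mono (by
      conv_rhs => rw [← hD]
      intro b hb
      exact Or.inr (mem_iUnion₂.2 ⟨d, hd, mem_iUnion₂.2 ⟨i, hdi, hb⟩⟩)) hw
    have h1 : w = z := hZs w (hDK hwD) z (hDK hzD) (hσs D w hwD z hzD (hwy.trans hzy.symm))
    exact h1 ▸ ((hτs i).closure_sub _ hw).2
  · push Not at hc
    refine closure_minimal (fun d hd => ?_) (hst i) hzD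
    by_contra hcc
    exact hc d hd ⟨hLK (hK'L (hDK' hd)), hcc⟩

theorem Tau.win_countable (h : Tau K τ) {ι : Type} [Countable ι] (Ψ : ι → Set C(X, ℝ))
    (hgood : ∀ i, Sep (Ψ i) (closure (τ (Ψ i)))) (hw : ∀ i, Win (closure (τ (Ψ i))))
    (hs : Sep (⋃ i, Ψ i) K) : Win K := by
  choose! r hr hra using h.approx
  refine Win.prod (fun i => r (Ψ i)) _ hw (fun i x hx => hr _ x hx) (fun i L hL hLK => ?_)
    fun x hx y hy hxy => hs x hx y hy fun φ hφ => ?_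
  · have h1 := (isClosed_closure (s := τ (Ψ i))).inter (isClosed_shadow_fst hL (Ψ i))
    convert h1 using 1
    ext z
    constructor
    · rintro ⟨x, hx, rfl⟩
      exact ⟨hr _ x (hLK hx), x, hx, (hra _ x (hLK hx)).symm⟩
    · rintro ⟨hz, x, hx, hxz⟩
      exact ⟨x, hx, hgood i _ (hr _ x (hLK hx)) z hz ((hra _ x (hLK hx)).trans hxz)⟩
  · obtain ⟨i, hi⟩ := mem_iUnion.1 hφ
    rw [← hra _ x hx φ hi, ← hra _ y hy φ hi, hxy i]

end Pool.Agent.MP_353077_gt
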