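import Pool.Agent.MP_353077_gt.Singular

open Set Filter Topology Cardinal

namespace Pool.Agent.MP_353077_gt

variable {X : Type} [TopologicalSpace X]

theorem LS.comp {Y : Type} [TopologicalSpace Y] {Z : Set C(Y, ℝ)} (hZ : LS Z) (f : C(X, Y)) :
    LS ((fun g : C(Y, ℝ) => g.comp f) '' Z) := by
  have h1 : Continuous fun g : Y → ℝ => g ∘ f :=
    continuous_pi fun x => continuous_apply (f x)
  have := UL.image hZ h1
  unfold LS
  rw [image_image] at this ⊢
  exact this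

theorem LS.add {A : Set C(X, ℝ)} (hA : LS A) : LS (image2 (· + ·) A A) := by
  have := (UL.prod hA hA).image (continuous_add (M := X → ℝ))
  unfold LS
  convert this using 1
  ext g
  constructor
  · rintro ⟨_, ⟨a, ha, b, hb, rfl⟩, rfl⟩
    exact ⟨(a, b), ⟨⟨a, ha, rfl⟩, b, hb, rfl⟩, rfl⟩
  · rintro ⟨⟨_, _⟩, ⟨⟨a, ha, rfl⟩, b, hb, rfl⟩, rfl⟩
    exact ⟨a + b, ⟨a, ha, b, hb, rfl⟩, rfl⟩

theorem LS.mul {A : Set C(X, ℝ)} (hA : LS A) : LS (image2 (· * ·) A A) := by
  have := (UL.prod hA hA).image (continuous_mul (M := X → ℝ))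
  unfold LS
  convert this using 1
  ext g
  constructor
  · rintro ⟨_, ⟨a, ha, b, hb, rfl⟩, rfl⟩
    exact ⟨(a, b), ⟨⟨a, ha, rfl⟩, b, hb, rfl⟩, rfl⟩
  · rintro ⟨⟨_, _⟩, ⟨⟨a, ha, rfl⟩, b, hb, rfl⟩, rfl⟩
    exact ⟨a * b, ⟨a, ha, b, hb, rfl⟩, rfl⟩

theorem LS.const : LS (range fun r : ℝ => (ContinuousMap.const X r)) := by
  have h1 : Continuous fun r : ℝ => (fun _ : X => r) := continuous_pi fun _ => continuous_id
  have := UL.real.image h1
  unfold LS
  rw [← range_comp]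
  rw [image_univ] at this
  exact this

theorem LS.all [CompactSpace X] {Z : Set C(X, ℝ)} (hZ : LS Z) (hs : Sep Z univ) :
    UL {g : X → ℝ | Continuous g} := by
  let step : Set C(X, ℝ) → Set C(X, ℝ) := fun A =>
    A ∪ (image2 (· + ·) A A ∪ image2 (· * ·) A A)
  let A : ℕ → Set C(X, ℝ) := fun n => step^[n] (Z ∪ range fun r : ℝ => (ContinuousMap.const X r))
  have hA : ∀ n, A (n + 1) = step (A n) := fun n => Function.iterate_succ_apply' step n _
  have hLS : ∀ n, LS (A n) := by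
    intro n
    induction n with
    | zero => exact hZ.union LS.const
    | succ n ih => rw [hA]; exact ih.union (ih.add.union ih.mul)
  have hmono : Monotone A := monotone_nat_of_le_succ fun n => by
    rw [hA]; exact subset_union_left
  let S : Subalgebra ℝ C(X, ℝ) :=
    { carrier := ⋃ n, A n
      mul_mem' := by
        intro a b ha hb
        obtain ⟨n, hn⟩ := mem_iUnion.1 ha
        obtain ⟨m, hm⟩ := mem_iUnion.1 hb
        refine mem_iUnion.2 ⟨max n m + 1, ?_⟩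
        rw [hA]
        exact Or.inr (Or.inr ⟨a, hmono (le_max_left _ _) hn, b, hmono (le_max_right _ _) hm, rfl⟩)
      add_mem' := by
        intro a b ha hb
        obtain ⟨n, hn⟩ := mem_iUnion.1 ha
        obtain ⟨m, hm⟩ := mem_iUnion.1 hb
        refine mem_iUnion.2 ⟨max n m + 1, ?_⟩
        rw [hA]
        exact Or.inr (Or.inl ⟨a, hmono (le_max_left _ _) hn, b, hmono (le_max_right _ _) hm, rfl⟩)
      algebraMap_mem' := fun r => mem_iUnion.2 ⟨0, Or.inr ⟨r, rfl⟩⟩ }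
  have hS : S.SeparatesPoints := by
    intro x y hxy
    by_contra hc
    refine hxy (hs x trivial y trivial fun φ hφ => ?_)
    by_contra hne
    exact hc ⟨φ, ⟨φ, mem_iUnion.2 ⟨0, Or.inl hφ⟩, rfl⟩, hne⟩
  have h1 := UL.unif (LS.iUnion hLS)
  convert h1 using 1
  ext g
  constructor
  · intro hg n
    obtain ⟨a, ha⟩ := ContinuousMap.exists_mem_subalgebra_near_continuous_of_separatesPoints S hS
      g hg (1 / ((n : ℝ) + 1)) (by positivity)
    exact ⟨a.1, ⟨a.1, a.2, rfl⟩, fun p => (ha p).le⟩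
  · intro hg
    choose a ha hag using hg
    refine TendstoUniformly.continuous (F := a) (p := atTop) ?_ ?_
    · rw [Metric.tendstoUniformly_iff]
      intro ε hε
      obtain ⟨N, hN⟩ := exists_nat_one_div_lt hε
      filter_upwards [eventually_ge_atTop N] with n hn p
      rw [Real.dist_eq, abs_sub_comm]
      refine (hag n p).trans_lt (lt_of_le_of_lt ?_ hN)
      exact Nat.one_div_le_one_div hn
    · refine Frequently.of_forall fun n => ?_
      obtain ⟨b, -, hb⟩ := ha n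
      exact hb ▸ b.continuous

theorem UL.subtype {E : Type} [TopologicalSpace E] {p : E → Prop} (h : UL {x | p x}) :
    UL (univ : Set (Subtype p)) := by
  obtain ⟨ι, hι, N, hN⟩ := h
  refine ⟨ι, hι, fun i => Subtype.val ⁻¹' N i, fun g _ U hU => ?_⟩
  obtain ⟨z, hz, hlim⟩ := hN g.1 g.2 (U.map Subtype.val) hU
  refine ⟨⟨z, hz⟩, trivial, ?_⟩
  rw [nhds_subtype_eq_comap]
  exact map_le_iff_le_comap.1 hlim

/-- the Lindelof Sigma property of the function space -/
def Gul (Y : Type) [TopologicalSpace Y] : Prop :=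
  ∃ N : ℕ → Set {g : Y → ℝ // Continuous g},
    ∀ g : {g : Y → ℝ // Continuous g}, ∃ C : Set {g : Y → ℝ // Continuous g},
      IsCompact C ∧ g ∈ C ∧
      ∀ U : Set {g : Y → ℝ // Continuous g}, IsOpen U → C ⊆ U → ∃ n : ℕ, C ⊆ N n ∧ N n ⊆ U

theorem Gul.ls {Y : Type} [TopologicalSpace Y] (h : Gul Y) : LS (univ : Set C(Y, ℝ)) := by
  obtain ⟨N, hN⟩ := h
  have := (UL.of_network N hN).image continuous_subtype_val
  unfold LS
  convert this using 1
  ext g
  constructor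
  · rintro ⟨f, -, rfl⟩
    exact ⟨⟨f, f.continuous⟩, trivial, rfl⟩
  · rintro ⟨f, -, rfl⟩
    exact ⟨⟨f.1, f.2⟩, trivial, rfl⟩

theorem gul_of_sep [CompactSpace X] {Z : Set C(X, ℝ)} (hZ : LS Z) (hs : Sep Z univ) : Gul X :=
  (hZ.all hs).subtype.to_network

theorem split_of_hyp (h : ∀ A : Set X, ∃ (Y : Type) (_ : TopologicalSpace Y), CompactSpace Y ∧
    T2Space Y ∧ Gul Y ∧ ∃ f : X → Y, Continuous f ∧ f ⁻¹' (f '' A) = A) : Split X := by
  intro A
  obtain ⟨Y, _, _, _, hY, f, hf, hA⟩ := h A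
  refine ⟨_, hY.ls.comp ⟨f, hf⟩, fun x y hxy hx => ?_⟩
  have h1 : f x = f y := by
    by_contra hne
    obtain ⟨g, hg⟩ := exists_sep_fun hne
    exact hg (hxy _ ⟨g, trivial, rfl⟩)
  rw [← hA]
  exact ⟨x, hx, h1⟩

/-- a compact space splittable over Gulko compacta is Gulko compact -/
theorem gul_of_split [CompactSpace X] [T2Space X]
    (h : ∀ A : Set X, ∃ (Y : Type) (_ : TopologicalSpace Y), CompactSpace Y ∧
      T2Space Y ∧ Gul Y ∧ ∃ f : X → Y, Continuous f ∧ f ⁻¹' (f '' A) = A) : Gul X := by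
  obtain ⟨Z, hZ, hs⟩ := (split_of_hyp h).exists_LS
  exact gul_of_sep hZ hs

theorem gul_sq_of_split [CompactSpace X] [T2Space X]
    (h : ∀ A : Set X, ∃ (Y : Type) (_ : TopologicalSpace Y), CompactSpace Y ∧
      T2Space Y ∧ Gul Y ∧ ∃ f : X → Y, Continuous f ∧ f ⁻¹' (f '' A) = A) : Gul (X × X) := by
  obtain ⟨Z, hZ, hs⟩ := (split_of_hyp h).exists_LS
  refine gul_of_sep ((hZ.comp ContinuousMap.fst).union (hZ.comp ContinuousMap.snd))
    fun p _ q _ hpq => Prod.ext (hs _ trivial _ trivial fun φ hφ => ?_)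
      (hs _ trivial _ trivial fun φ hφ => ?_)
  · exact hpq _ (Or.inl ⟨φ, hφ, rfl⟩)
  · exact hpq _ (Or.inr ⟨φ, hφ, rfl⟩)

end Pool.Agent.MP_353077_gt
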