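import Pool.Agent.MP_353077_gt.Basic

open Set Filter Topology Cardinal

namespace Pool.Agent.MP_353077_gt

variable {X : Type} [TopologicalSpace X]

/-- monochromatic set for a countable family of subsets -/
def Mono (χ : ℕ → Set X) (L : Set X) : Prop := ∀ k, ∀ x ∈ L, ∀ y ∈ L, x ∈ χ k → y ∈ χ k

/-- history of a play -/
def hist (L : ℕ → Set X) : ℕ → List (Set X)
  | 0 => []
  | n + 1 => hist L n ++ [L n]

/-- the colouring player has a winning strategy on the set -/
def Win (K : Set X) : Prop :=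
  ∃ col : List (Set X) → ℕ → Set X, ∀ L : ℕ → Set X, (∀ n, IsClosed (L n)) → L 0 ⊆ K →
    (∀ n, L (n + 1) ⊆ L n) → (∀ n, Mono (col (hist L n)) (L n)) →
    ∀ x y, (∀ n, x ∈ L n) → (∀ n, y ∈ L n) → x = y

theorem hist_succ (L : ℕ → Set X) (n : ℕ) :
    hist L (n + 1) = L 0 :: hist (fun i => L (i + 1)) n := by
  induction n with
  | zero => rfl
  | succ n ih => rw [hist, ih]; rfl

theorem hist_map (L : ℕ → Set X) (f : Set X → Set X) (n : ℕ) :
    (hist L n).map f = hist (fun i => f (L i)) n := by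
  induction n with
  | zero => rfl
  | succ n ih => rw [hist, List.map_append, ih]; rfl

theorem exists_nat_family {ι : Type} [Countable ι] (A : ι → Set X) :
    ∃ χ : ℕ → Set X, ∀ L, Mono χ L → ∀ i, ∀ x ∈ L, ∀ y ∈ L, x ∈ A i → y ∈ A i := by
  obtain ⟨e, he⟩ := exists_injective_nat ι
  refine ⟨fun k => {x | ∃ i, e i = k ∧ x ∈ A i}, fun L hL i x hx y hy hxi => ?_⟩
  obtain ⟨j, hj, h⟩ := hL (e i) x hx y hy ⟨i, rfl, hxi⟩
  exact he hj ▸ h

theorem Win.mono {K K' : Set X} (h : Win K) (hs : K' ⊆ K) : Win K' := by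
  obtain ⟨col, hcol⟩ := h
  exact ⟨col, fun L h1 h2 => hcol L h1 (h2.trans hs)⟩

theorem Win.step {K : Set X} {ι : Type} [Countable ι] (A : ι → Set X)
    (h : ∀ L, IsClosed L → L ⊆ K → (∀ i, ∀ x ∈ L, ∀ y ∈ L, x ∈ A i → y ∈ A i) → Win L) :
    Win K := by
  classical
  obtain ⟨χ, hχ⟩ := exists_nat_family A
  let c : Set X → List (Set X) → ℕ → Set X := fun L =>
    if h : Win L then h.choose else fun _ _ => ∅
  refine ⟨fun l => match l with
    | [] => χ
    | L0 :: rest => c L0 rest, fun L h1 h2 h3 h4 x y hx hy => ?_⟩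
  have hw : Win (L 0) := h (L 0) (h1 0) h2 (hχ _ (h4 0))
  refine hw.choose_spec (fun i => L (i + 1)) (fun n => h1 _) (h3 0) (fun n => h3 _) (fun n => ?_)
    x y (fun n => hx _) (fun n => hy _)
  have := h4 (n + 1)
  rw [hist_succ] at this
  simpa [c, hw] using this

theorem Win.of_subsingleton {K : Set X} (h : K.Subsingleton) : Win K :=
  ⟨fun _ _ => ∅, fun L _ h2 _ _ x y hx hy => h (h2 (hx 0)) (h2 (hy 0))⟩

theorem Win.of_countable {K : Set X} {Φ : Set C(X, ℝ)} (hΦ : Φ.Countable) (hs : Sep Φ K) :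
    Win K := by
  have := hΦ.to_subtype
  refine Win.step (fun c : Φ × ℚ => {x | c.1.1 x < c.2}) fun L _ hL hm => ?_
  refine Win.of_subsingleton fun x hx y hy => hs x (hL hx) y (hL hy) fun φ hφ => ?_
  by_contra hne
  rcases lt_or_gt_of_ne hne with h | h
  · obtain ⟨q, h1, h2⟩ := exists_rat_btwn h
    exact lt_asymm h2 (hm (⟨φ, hφ⟩, q) x hx y hy h1)
  · obtain ⟨q, h1, h2⟩ := exists_rat_btwn h
    exact lt_asymm h2 (hm (⟨φ, hφ⟩, q) y hy x hx h1)

theorem Win.prod {K : Set X} {ι : Type} [Countable ι] (r : ι → X → X) (Ks : ι → Set X)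
    (hw : ∀ i, Win (Ks i)) (hmap : ∀ i, ∀ x ∈ K, r i x ∈ Ks i)
    (hcl : ∀ i L, IsClosed L → L ⊆ K → IsClosed (r i '' L))
    (hinj : ∀ x ∈ K, ∀ y ∈ K, (∀ i, r i x = r i y) → x = y) : Win K := by
  choose col hcol using hw
  choose χ hχ using fun l : List (Set X) =>
    exists_nat_family (fun c : ι × ℕ => r c.1 ⁻¹' col c.1 (l.map (image (r c.1))) c.2)
  refine ⟨χ, fun L h1 h2 h3 h4 x y hx hy => hinj x (h2 (hx 0)) y (h2 (hy 0)) fun i => ?_⟩
  have hK : ∀ n, L n ⊆ K := by
    intro n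
    induction n with
    | zero => exact h2
    | succ n ih => exact (h3 n).trans ih
  refine hcol i (fun n => r i '' L n) (fun n => hcl i _ (h1 n) (hK n)) ?_
    (fun n => image_mono (h3 n)) (fun n => ?_) _ _ (fun n => ⟨x, hx n, rfl⟩)
    (fun n => ⟨y, hy n, rfl⟩)
  · rintro _ ⟨z, hz, rfl⟩
    exact hmap i z (h2 hz)
  · rintro k _ ⟨u, hu, rfl⟩ _ ⟨v, hv, rfl⟩ huv
    have := hχ _ _ (h4 n) (i, k) u hu v hv
    simp only [hist_map, mem_preimage] at this
    exact this huv

theorem Win.exists_LS (hX : Split X) {K : Set X} (hK : IsClosed K) (h : Win K) :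
    ∃ Z : Set C(X, ℝ), LS Z ∧ Sep Z K := by
  obtain ⟨col, hcol⟩ := h
  choose Zs hZs hZA using hX
  let cls : Set C(X, ℝ) → X → Set X := fun Z x => {y | y ∈ K ∧ Agree Z x y}
  let nz : Set C(X, ℝ) × (X → List (Set X)) → Set C(X, ℝ) := fun s =>
    s.1 ∪ ⋃ k, Zs {x | x ∈ col (s.2 x) k}
  let step : Set C(X, ℝ) × (X → List (Set X)) → Set C(X, ℝ) × (X → List (Set X)) := fun s =>
    (nz s, fun x => s.2 x ++ [cls (nz s) x])
  let st : ℕ → Set C(X, ℝ) × (X → List (Set X)) := fun n => step^[n] (∅, fun _ => [])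
  have hst : ∀ n, st (n + 1) = step (st n) := fun n => Function.iterate_succ_apply' step n _
  have hsub : ∀ n, (st n).1 ⊆ (st (n + 1)).1 := fun n => by
    rw [hst]; exact subset_union_left
  have hLS : ∀ n, LS (st n).1 := by
    intro n
    induction n with
    | zero => exact LS.empty
    | succ n ih => rw [hst]; exact ih.union (LS.iUnion fun k => hZs _)
  have hinv : ∀ n x y, Agree (st n).1 x y → (st n).2 x = (st n).2 y := by
    intro n
    induction n with
    | zero => intro x y _; rfl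
    | succ n ih =>
      intro x y hxy
      have h1 := ih x y (hxy.mono (hsub n))
      rw [hst] at hxy ⊢
      have h2 : cls (nz (st n)) x = cls (nz (st n)) y := by
        ext z
        exact ⟨fun hz => ⟨hz.1, hxy.symm.trans hz.2⟩, fun hz => ⟨hz.1, hxy.trans hz.2⟩⟩
      simp only [step, h1, h2]
  have hhist : ∀ x n, (st n).2 x = hist (fun i => cls (st (i + 1)).1 x) n := by
    intro x n
    induction n with
    | zero => rfl
    | succ n ih => rw [hist, ← ih, hst]
  refine ⟨⋃ n, (st n).1, LS.iUnion hLS, fun x hx y hy hxy => ?_⟩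
  refine hcol (fun i => cls (st (i + 1)).1 x) (fun n => ?_) (fun z hz => hz.1)
    (fun n z hz => ⟨hz.1, hz.2.mono (hsub _)⟩) (fun n => ?_) x y
    (fun n => ⟨hx, Agree.refl _ _⟩) (fun n => ⟨hy, hxy.mono (subset_iUnion (fun n => (st n).1) _)⟩)
  · exact hK.inter ((isClosed_agree _).preimage (Continuous.prodMk_right x))
  · intro k u hu v hv huk
    rw [← hhist] at huk ⊢
    have h1 : (st n).2 x = (st n).2 u := hinv n x u (hu.2.mono (hsub n))
    have h2 : (st n).2 x = (st n).2 v := hinv n x v (hv.2.mono (hsub n))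
    have h3 : Agree (Zs {x | x ∈ col ((st n).2 x) k}) u v := by
      refine (hu.2.symm.trans hv.2).mono ?_
      rw [hst]
      exact (subset_iUnion (fun k => Zs {x | x ∈ col ((st n).2 x) k}) k).trans subset_union_right
    have h4 := hZA _ u v h3 (show u ∈ col ((st n).2 u) k from h1 ▸ huk)
    rw [h2]
    exact h4

end Pool.Agent.MP_353077_gt
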