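import Pool.Agent.MP_353077_gt.Chain

open Set Filter Topology Cardinal

namespace Pool.Agent.MP_353077_gt

theorem exists_rec {Ω α : Type} [LinearOrder Ω] [WellFoundedLT Ω] (F : Ω → Set α → Set α) :
    ∃ m : Ω → Set α, ∀ ν, m ν = F ν (⋃ ξ ∈ Iio ν, m ξ) := by
  refine ⟨WellFoundedLT.fix (fun ν prev => F ν (⋃ ξ, ⋃ h : ξ < ν, prev ξ h)), fun ν => ?_⟩
  rw [WellFoundedLT.fix_eq]
  rfl

theorem bound_of_lt_cof {κ : Cardinal} (S : Set κ.ord.ToType) (hS : #S < κ.ord.cof) :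
    ∃ b, ∀ i ∈ S, i < b := by
  rw [← not_isCofinal_iff]
  intro h
  have := Order.cof_le h
  rw [Ordinal.cof_toType] at this
  exact absurd hS (not_lt.2 this)

theorem exists_order {κ : Cardinal} (h : κ.IsRegular) :
    ∃ (I : Type) (_ : LinearOrder I) (_ : WellFoundedLT I), #I = κ ∧ (∀ i : I, #(Iio i) < κ) ∧
      ∀ S : Set I, #S < κ → ∃ b, ∀ i ∈ S, i < b :=
  ⟨κ.ord.ToType, inferInstance, inferInstance, mk_ord_toType κ, mk_Iio_toType_ord_lt,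
    fun S hS => bound_of_lt_cof S (h.cof_ord.symm ▸ hS)⟩

theorem exists_image_cover {W C : Type} [Nonempty C] (T : Set C) (V : Set W) :
    ∃ e : W → C, #T ≤ #V → T ⊆ e '' V := by
  classical
  by_cases h : #T ≤ #V
  · obtain ⟨f⟩ := (Cardinal.le_def _ _).1 h
    refine ⟨Function.extend (fun t : T => (f t : W)) Subtype.val (fun _ => Classical.arbitrary C),
      fun _ c hc => ⟨f ⟨c, hc⟩, (f ⟨c, hc⟩).2, ?_⟩⟩
    exact (Subtype.val_injective.comp f.injective).extend_apply _ _ (⟨c, hc⟩ : T)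
  · exact ⟨fun _ => Classical.arbitrary C, fun h' => (h h').elim⟩

theorem two_colour {X I : Type} [LinearOrder I] [WellFoundedLT I] (rk : X → I) (B : Set I)
    (p q : I → X) (hp : ∀ α ∈ B, rk (p α) = α) (hq : ∀ α ∈ B, rk (q α) ≤ α)
    (hne : ∀ α ∈ B, p α ≠ q α) : ∃ A : Set X, ∀ α ∈ B, ¬ (p α ∈ A ↔ q α ∈ A) := by
  let c : I → Prop := WellFoundedLT.fix fun α prev =>
    ¬ ∃ h : rk (q α) < α, rk (q α) ∈ B ∧ q α = p (rk (q α)) ∧ prev _ h
  have hc : ∀ α, c α ↔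
      ¬ ∃ _ : rk (q α) < α, rk (q α) ∈ B ∧ q α = p (rk (q α)) ∧ c (rk (q α)) := fun α => by
    simp only [c]
    rw [WellFoundedLT.fix_eq]
  refine ⟨{x | rk x ∈ B ∧ x = p (rk x) ∧ c (rk x)}, fun α hα => ?_⟩
  have h1 : p α ∈ {x | rk x ∈ B ∧ x = p (rk x) ∧ c (rk x)} ↔ c α := by
    simp only [mem_setOf_eq, hp α hα]
    exact ⟨fun h => h.2.2, fun h => ⟨hα, trivial, h⟩⟩
  have h2 : q α ∈ {x | rk x ∈ B ∧ x = p (rk x) ∧ c (rk x)} ↔ ¬ c α := by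
    rw [hc, not_not]
    refine ⟨fun h => ⟨lt_of_le_of_ne (hq α hα) fun he => ?_, h⟩, fun ⟨_, h⟩ => h⟩
    have := h.2.1
    rw [he] at this
    exact hne α hα this.symm
  rw [h1, h2]
  exact iff_not_self

variable {X : Type} [TopologicalSpace X] [CompactSpace X] [T2Space X]

theorem exists_factor {K : Set X} (hK : IsClosed K) {Θ : Set C(X, ℝ)} (hs : Sep Θ K)
    (h : C(X, ℝ)) : ∃ Θ' ⊆ Θ, Θ'.Countable ∧ ∀ x ∈ K, ∀ y ∈ K, Agree Θ' x y → h x = h y := by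
  have h1 : ∀ n : ℕ, ∃ Θ' ⊆ Θ, Θ'.Finite ∧ ∀ x ∈ K, ∀ y ∈ K, Agree Θ' x y →
      |h x - h y| < 1 / ((n : ℝ) + 1) := by
    intro n
    have hc : IsCompact ((K ×ˢ K) ∩ {p : X × X | 1 / ((n : ℝ) + 1) ≤ |h p.1 - h p.2|}) :=
      ((hK.prod hK).inter (isClosed_le continuous_const
        ((h.continuous.comp continuous_fst).sub (h.continuous.comp continuous_snd)).abs)).isCompact
    obtain ⟨Θ', h1, h2, h3⟩ := hc.elim_finite_subcover_image (b := Θ)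
      (c := fun φ => {p : X × X | φ p.1 ≠ φ p.2}) (fun φ _ => isOpen_ne_fun
        (φ.continuous.comp continuous_fst) (φ.continuous.comp continuous_snd)) (by
      rintro ⟨x, y⟩ ⟨⟨hx, hy⟩, hxy⟩
      by_contra hcon
      simp only [mem_iUnion, mem_setOf_eq, not_exists, not_not] at hcon
      have h4 : x = y := hs x hx y hy fun φ hφ => hcon φ hφ
      subst h4
      simp only [mem_setOf_eq, sub_self, abs_zero] at hxy
      have : (0 : ℝ) < 1 / ((n : ℝ) + 1) := by positivity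
      linarith)
    refine ⟨Θ', h1, h2, fun x hx y hy hxy => ?_⟩
    by_contra hcon
    obtain ⟨φ, hφ, h4⟩ := mem_iUnion₂.1 (h3 (a := (x, y)) ⟨⟨hx, hy⟩, not_lt.1 hcon⟩)
    exact h4 (hxy φ hφ)
  choose T hT hTf hTs using h1
  refine ⟨⋃ n, T n, iUnion_subset hT, countable_iUnion fun n => (hTf n).countable,
    fun x hx y hy hxy => ?_⟩
  by_contra hne
  obtain ⟨n, hn⟩ := exists_nat_one_div_lt (abs_pos.2 (sub_ne_zero.2 hne))
  exact lt_asymm hn (hTs n x hx y hy (hxy.mono (subset_iUnion T n)))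

theorem tight_chain (hX : Split X) {τ : Set C(X, ℝ) → Set X} (hτ : FinOp τ) {Ω : Type}
    [LinearOrder Ω] (hbd : Bd Ω) {Ψ : Ω → Set C(X, ℝ)} (hm : Monotone Ψ) {S : Set C(X, ℝ)}
    (hS : S ⊆ ⋃ ν, Ψ ν) {x : X} (hx : x ∈ closure (τ S)) : ∃ ν, x ∈ closure (τ (Ψ ν)) := by
  have := hbd.nonempty
  obtain ⟨B, hBc, hB, hxB⟩ := hX.tight hx
  have h1 : ∀ b ∈ B, ∃ ν ∈ (univ : Set Ω), b ∈ τ (Ψ ν) := fun b hb =>
    hτ.chain hm univ_nonempty (by simpa using hS) (hB hb)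
  choose! f _ hf using h1
  obtain ⟨ν, hν⟩ := hbd (f '' B) (hBc.image f)
  exact ⟨ν, closure_mono (fun b hb => hτ.mono _ _ (hm (hν _ ⟨b, hb, rfl⟩).le) (hf b hb)) hxB⟩

theorem Tau.mem_of_sep {K : Set X} {τ : Set C(X, ℝ) → Set X} (h : Tau K τ) {Θ : Set C(X, ℝ)}
    (hs : Sep Θ K) {x : X} (hx : x ∈ K) : x ∈ closure (τ Θ) := by
  obtain ⟨z, hz, hzx⟩ := h.approx Θ x hx
  exact hs z (h.closure_sub _ hz) x hx hzx ▸ hz

theorem exists_M (hX : Split X) {τ : Set C(X, ℝ) → Set X} (hτ : FinOp τ) :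
    ∃ M : Set C(X, ℝ) → Set C(X, ℝ), ∀ Ψ, #(M Ψ) ≤ max #Ψ ℵ₀ ∧ Sep (M Ψ) (closure (τ Ψ)) := by
  choose M hM using fun Ψ : Set C(X, ℝ) => hX.mono (τ Ψ) (le_max_right #Ψ ℵ₀)
    (hτ.card_le (le_max_right _ _) (le_max_left _ _))
  exact ⟨M, hM⟩

theorem win_regular (hX : Split X) {K : Set X} (hK : IsClosed K) {κ : Cardinal}
    (hreg : κ.IsRegular) (hκ : ℵ₀ < κ) {Ψ : Set C(X, ℝ)} (hΨ : #Ψ ≤ κ) (hs : Sep Ψ K)
    (IH : ∀ D : Set X, #D < κ → Win (closure D)) : Win K := by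
  classical
  rcases K.eq_empty_or_nonempty with rfl | ⟨x0, hx0⟩
  · exact Win.of_subsingleton subsingleton_empty
  have : Nonempty X := ⟨x0⟩
  obtain ⟨τ, hτ⟩ := exists_Tau hK
  obtain ⟨M, hM⟩ := exists_M hX hτ.fin
  obtain ⟨I, _, _, hI, hIio, hIb⟩ := exists_order hreg
  have hbd : Bd I := fun S hS => hIb S ((le_aleph0_iff_set_countable.2 hS).trans_lt hκ)
  have := hbd.nonempty
  obtain ⟨e, he⟩ := exists_image_cover Ψ (univ : Set I)
  have he' : Ψ ⊆ range e := by simpa using he (by simpa [hI] using hΨ)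
  obtain ⟨m, hm⟩ := exists_rec (fun (β : I) (S : Set C(X, ℝ)) => insert (e β) (M S))
  let Φ : I → Set C(X, ℝ) := fun α => ⋃ β ∈ Iio α, m β
  have hmΦ : ∀ β α, β < α → m β ⊆ Φ α := fun β α h => subset_biUnion_of_mem (u := m) h
  have hmono : Monotone Φ := fun a b hab => biUnion_subset_biUnion_left (Iio_subset_Iio hab)
  have hcont : ∀ δ, IsLim δ → Φ δ ⊆ ⋃ i ∈ Iio δ, Φ i := fun δ hδ φ hφ => by
    obtain ⟨β, hβ, hφ⟩ := mem_iUnion₂.1 hφ
    obtain ⟨j, h1, h2⟩ := hδ.2 β hβ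
    exact mem_iUnion₂.2 ⟨j, h2, hmΦ β j h1 hφ⟩
  have hcard : ∀ α, #(Φ α) < κ := by
    intro α
    induction α using WellFoundedLT.induction with
    | ind α ih =>
      refine (card_biUnion_lt_iff_forall_of_isRegular hreg (hIio α)).2 fun β hβ => ?_
      rw [hm]
      refine mk_insert_le.trans_lt (add_lt_of_lt hκ.le ((hM _).1.trans_lt
        (max_lt (ih β hβ) hκ)) (one_lt_aleph0.trans hκ))
  have hsepU : Sep (⋃ α, Φ α) K := fun x hx y hy hxy => hs x hx y hy (hxy.mono fun φ hφ => by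
    obtain ⟨β, rfl⟩ := he' hφ
    obtain ⟨b, hb⟩ := hbd {β} (countable_singleton β)
    exact mem_iUnion.2 ⟨b, hmΦ β b (hb β rfl) (by rw [hm]; exact mem_insert _ _)⟩)
  have hcov : ∀ x ∈ K, ∃ α, x ∈ closure (τ (Φ α)) := fun x hx =>
    tight_chain hX hτ.fin hbd hmono subset_rfl (hτ.mem_of_sep hsepU hx)
  have hrk : ∀ x ∈ K, ∃ α, x ∈ closure (τ (Φ α)) ∧ ∀ β, x ∈ closure (τ (Φ β)) → α ≤ β :=
    fun x hx => ⟨wellFounded_lt.min _ (hcov x hx), wellFounded_lt.min_mem _ (hcov x hx),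
      fun β hβ => not_lt.1 (wellFounded_lt.not_lt_min {α | x ∈ closure (τ (Φ α))} hβ)⟩
  choose! rk hrk1 hrk2 using hrk
  let B : Set I := {α | ¬ Sep (Φ α) (closure (τ (Φ α)))}
  have hB : ∀ α ∈ B, ∃ p ∈ closure (τ (Φ α)), ∃ q ∈ closure (τ (Φ α)),
      Agree (Φ α) p q ∧ p ≠ q ∧ rk p = α := by
    intro α hα
    simp only [B, Sep, mem_setOf_eq] at hα
    push Not at hα
    obtain ⟨p, hp, q, hq, h1, h2⟩ := hα
    have hpK := hτ.closure_sub _ hp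
    have hqK := hτ.closure_sub _ hq
    rcases (hrk2 p hpK α hp).eq_or_lt with h3 | h3
    · exact ⟨p, hp, q, hq, h1, h2, h3⟩
    rcases (hrk2 q hqK α hq).eq_or_lt with h4 | h4
    · exact ⟨q, hq, p, hp, h1.symm, h2.symm, h4⟩
    refine (h2 ((hM (Φ (max (rk p) (rk q)))).2 p ?_ q ?_ (h1.mono ?_))).elim
    · exact hτ.closure_mono (hmono (le_max_left _ _)) (hrk1 p hpK)
    · exact hτ.closure_mono (hmono (le_max_right _ _)) (hrk1 q hqK)
    · refine subset_trans ?_ (hmΦ _ _ (max_lt h3 h4))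
      rw [hm]
      exact subset_insert _ _
  choose! p hp q hq hpq hne hrkp using hB
  obtain ⟨A, hA⟩ := two_colour rk B p q hrkp
    (fun α hα => hrk2 _ (hτ.closure_sub _ (hq α hα)) α (hq α hα)) hne
  obtain ⟨Z, hZ, hZA⟩ := hX A
  obtain ⟨σ, hσ, hσs⟩ := hZ.exists_sigma
  choose Θ hΘ hΘc hΘs using exists_factor hK hsepU
  let G : Set C(X, ℝ) → Set C(X, ℝ) := fun S => ⋃ h ∈ σ (τ S), Θ h
  have hG : FinOp G := (FinOp.biUnion Θ hΘc).comp (hσ.comp hτ.fin)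
  let C : Set I := {δ | G (Φ δ) ⊆ Φ δ}
  have hgood : ∀ δ ∈ C, Sep (Φ δ) (closure (τ (Φ δ))) := by
    intro δ hδ
    by_contra hc
    have h1 : Agree Z (p δ) (q δ) := hσs _ _ (hp δ hc) _ (hq δ hc) fun h hh =>
      hΘs h _ (hτ.closure_sub _ (hp δ hc)) _ (hτ.closure_sub _ (hq δ hc))
        ((hpq δ hc).mono ((subset_biUnion_of_mem (u := Θ) hh).trans hδ))
    exact hA δ hc ⟨hZA _ _ h1, hZA _ _ h1.symm⟩
  have hunb : ∀ a, ∃ δ ∈ C, a < δ := by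
    intro a
    obtain ⟨δ, ha, hlim, hδ⟩ := hbd.club (fun i j => G (Φ i) ⊆ Φ j) (fun i => by
        have h1 : ∀ φ ∈ G (Φ i), ∃ j, φ ∈ Φ j := fun φ hφ => by
          obtain ⟨h, -, hφ⟩ := mem_iUnion₂.1 hφ
          exact mem_iUnion.1 (hΘ h hφ)
        choose! f hf using h1
        obtain ⟨b, hb⟩ := hIb (f '' G (Φ i)) (mk_image_le.trans_lt
          ((hG.card_le (le_max_right _ _) (le_max_left _ _)).trans_lt (max_lt (hcard i) hκ)))
        exact ⟨b, fun φ hφ => hmono (hb _ ⟨φ, hφ, rfl⟩).le (hf φ hφ)⟩)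
      (fun i i' j j' hi hj hR => (hG.mono _ _ (hmono hi)).trans (hR.trans (hmono hj))) a
    refine ⟨δ, fun b hb => ?_, ha⟩
    obtain ⟨i, hi, hbi⟩ := hG.chain hmono hlim.1 (hcont δ hlim) hb
    obtain ⟨j, hj, hR⟩ := hδ i hi
    exact hmono hj.le (hR hbi)
  have hbdC : ∀ S : Set C, #S < κ → ∃ b, ∀ i ∈ S, i < b := fun S hS => by
    obtain ⟨b, hb⟩ := hIb (Subtype.val '' S) (mk_image_le.trans_lt hS)
    obtain ⟨δ, hδ, hbδ⟩ := hunb b
    exact ⟨⟨δ, hδ⟩, fun i hi => (hb _ ⟨i, hi, rfl⟩).trans hbδ⟩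
  have hbdC' : Bd C := fun S hS => hbdC S ((le_aleph0_iff_set_countable.2 hS).trans_lt hκ)
  obtain ⟨nxt, hnxt⟩ := hbdC'.exists_nxt
  have hch : Chain K τ (fun i : C => Φ i) nxt := by
    refine ⟨hX, hτ, hbdC', hnxt, fun i j hij => hmono hij, fun δ hδ => ?_,
      fun i => hgood i i.2, fun x hx => ?_⟩
    · let T : Set I := {i | i ∈ C ∧ i < δ}
      have hTne : T.Nonempty := by
        obtain ⟨i, hi⟩ := hδ.1
        exact ⟨i, i.2, hi⟩
      have hTm : ∀ i ∈ T, ∃ j ∈ T, i < j := fun i hi => by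
        obtain ⟨j, h1, h2⟩ := hδ.2 ⟨i, hi.1⟩ hi.2
        exact ⟨j, ⟨j.2, h2⟩, h1⟩
      have hne : {b | ∀ i ∈ T, i ≤ b}.Nonempty := ⟨δ, fun i hi => hi.2.le⟩
      let β := wellFounded_lt.min _ hne
      have hβ : ∀ i ∈ T, i ≤ β := wellFounded_lt.min_mem _ hne
      have hβ' : ∀ i ∈ T, i < β := fun i hi => by
        obtain ⟨j, hj, hij⟩ := hTm i hi
        exact hij.trans_le (hβ j hj)
      have hβ2 : ∀ i < β, ∃ j ∈ T, i < j := fun i hi => by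
        by_contra hc
        push Not at hc
        exact wellFounded_lt.not_lt_min {b | ∀ i ∈ T, i ≤ b} hc hi
      have hlim : IsLim β := ⟨hTne.imp hβ', fun i hi => by
        obtain ⟨j, hj, hij⟩ := hβ2 i hi
        exact ⟨j, hij, hβ' j hj⟩⟩
      have h1 : Φ β ⊆ ⋃ j ∈ T, Φ j := (hcont β hlim).trans (iUnion₂_subset fun i hi => by
        obtain ⟨j, hj, hij⟩ := hβ2 i hi
        exact (hmono hij.le).trans (subset_biUnion_of_mem (u := Φ) hj))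
      have h2 : β ∈ C := fun b hb => by
        obtain ⟨j, hj, hb⟩ := hG.chain hmono hTne h1 hb
        exact hmono (hβ j hj) (hj.1 hb)
      have h3 : (δ : I) ≤ β := by
        by_contra hc
        exact lt_irrefl _ (hβ' β ⟨h2, not_le.1 hc⟩)
      intro φ hφ
      obtain ⟨j, hj, hφ⟩ := mem_iUnion₂.1 (h1 (hmono h3 hφ))
      exact mem_iUnion₂.2 ⟨⟨j, hj.1⟩, hj.2, hφ⟩
    · obtain ⟨α, hα⟩ := hcov x hx
      obtain ⟨δ, hδ, hαδ⟩ := hunb α
      exact ⟨⟨δ, hδ⟩, hτ.closure_mono (hmono hαδ.le) hα⟩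
  refine hch.win_reg (fun i => IH _ ?_) fun i S hS => ?_
  · exact (hτ.fin.card_le (le_max_right _ _) (le_max_left _ _)).trans_lt (max_lt (hcard i) hκ)
  · obtain ⟨b, hb⟩ := hbdC S (hS.trans_lt (max_lt (hcard i) hκ))
    exact ⟨b, fun j hj => (hb j hj).le⟩

end Pool.Agent.MP_353077_gt
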