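import Pool.Agent.MP_353077_gt.Regular

open Set Filter Topology Cardinal

namespace Pool.Agent.MP_353077_gt

variable {X : Type} [TopologicalSpace X] [CompactSpace X] [T2Space X]

theorem win_singular (hX : Split X) {K : Set X} (hK : IsClosed K) {κ : Cardinal}
    (hsing : κ.IsSingular) {Ψ : Set C(X, ℝ)} (hΨ : #Ψ ≤ κ) (hs : Sep Ψ K)
    (IH : ∀ D : Set X, #D < κ → Win (closure D)) : Win K := by
  classical
  rcases K.eq_empty_or_nonempty with rfl | ⟨x0, hx0⟩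
  · exact Win.of_subsingleton subsingleton_empty
  have : Nonempty X := ⟨x0⟩
  have hκ0 : ℵ₀ ≤ κ := hsing.aleph0_le
  have hκ : ℵ₀ < κ := lt_of_le_of_ne hκ0 fun h => not_isSingular_aleph0 (h ▸ hsing)
  have hκ1 : ℵ₁ < κ := by
    refine lt_of_le_of_ne ?_ fun h => not_isSingular_aleph_one (h ▸ hsing)
    by_contra hc
    exact absurd (lt_aleph_one_iff.1 (not_le.1 hc)) (not_le.2 hκ)
  obtain ⟨τ, hτ⟩ := exists_Tau hK
  obtain ⟨M, hM⟩ := exists_M hX hτ.fin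
  let W := κ.ord.ToType
  have hW : #W = κ := mk_ord_toType κ
  have : NoMaxOrder W := Cardinal.noMaxOrder hκ0
  have hlam : κ.ord.cof.IsRegular := isRegular_cof (isSuccLimit_ord hκ0)
  have hlt : κ.ord.cof < κ := hsing.cof_ord_lt
  obtain ⟨I, _, _, hI, hIio, hIb⟩ := exists_order hlam
  obtain ⟨Ω, _, _, hΩ, -, hΩb⟩ := exists_order isRegular_aleph_one
  have hΩbd : Bd Ω := fun S hS => hΩb S ((countable_iff_lt_aleph_one S).1 hS)
  have hInext : ∀ i : I, ∃ b, i < b := fun i => by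
    obtain ⟨b, hb⟩ := hIb {i} (by simpa using one_lt_aleph0.trans_le hlam.aleph0_le)
    exact ⟨b, hb i rfl⟩
  -- cofinal map
  obtain ⟨c, hc⟩ : ∃ c : I → W, ∀ w, ∃ j, w < c j := by
    obtain ⟨T, hT, hTc⟩ := Order.exists_cof_eq W
    have : Nonempty W := mk_ne_zero_iff.1 (hW ▸ hsing.pos.ne')
    obtain ⟨c, hc⟩ := exists_image_cover T (univ : Set I)
    have hc' := hc (by rw [hTc, Ordinal.cof_toType, mk_univ, hI])
    refine ⟨c, fun w => ?_⟩
    obtain ⟨w', hw'⟩ := exists_gt w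
    obtain ⟨t, ht, hwt⟩ := hT w'
    obtain ⟨j, -, rfl⟩ := hc' ht
    exact ⟨j, hw'.trans_le hwt⟩
  let μ : Cardinal := max κ.ord.cof ℵ₁
  have hμ : μ < κ := max_lt hlt hκ1
  have hμ0 : ℵ₀ ≤ μ := (aleph0_le_aleph 1).trans (le_max_right _ _)
  obtain ⟨Wb, hWb⟩ : ∃ p : Set W, #p = μ := le_mk_iff_exists_set.1 (hW ▸ hμ.le)
  let V : I → Set W := fun i => Wb ∪ ⋃ j ∈ Iio i, Iio (c j)
  have hVmono : Monotone V := fun a b hab =>
    union_subset_union_right _ (biUnion_subset_biUnion_left (Iio_subset_Iio hab))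
  have hVμ : ∀ i, μ ≤ #(V i) := fun i => hWb ▸ mk_le_mk_of_subset subset_union_left
  have hVκ : ∀ i, #(V i) < κ := fun i => by
    obtain ⟨b, hb⟩ := bound_of_lt_cof (c '' Iio i) (mk_image_le.trans_lt (hIio i))
    have h1 : V i ⊆ Wb ∪ Iio b := union_subset_union_right _
      (iUnion₂_subset fun j hj => Iio_subset_Iio (hb _ ⟨j, hj, rfl⟩).le)
    exact ((mk_le_mk_of_subset h1).trans (mk_union_le _ _)).trans_lt
      (add_lt_of_lt hκ0 (hWb ▸ hμ) (mk_Iio_toType_ord_lt b))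
  have hVcont : ∀ δ, IsLim δ → V δ ⊆ ⋃ i ∈ Iio δ, V i := fun δ hδ w hw => by
    rcases hw with hw | hw
    · obtain ⟨i, hi⟩ := hδ.1
      exact mem_iUnion₂.2 ⟨i, hi, Or.inl hw⟩
    · obtain ⟨j, hj, hw⟩ := mem_iUnion₂.1 hw
      obtain ⟨i, h1, h2⟩ := hδ.2 j hj
      exact mem_iUnion₂.2 ⟨i, h2, Or.inr (mem_iUnion₂.2 ⟨j, h1, hw⟩)⟩
  have hVall : ∀ w, ∃ i, w ∈ V i := fun w => by
    obtain ⟨j, hj⟩ := hc w
    obtain ⟨i, hi⟩ := hInext j
    exact ⟨i, Or.inr (mem_iUnion₂.2 ⟨j, hi, hj⟩)⟩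
  obtain ⟨e0, he0⟩ := exists_image_cover Ψ (univ : Set W)
  have he0' : Ψ ⊆ range e0 := by simpa using he0 (by simpa [hW] using hΨ)
  let P : Set (W → C(X, ℝ)) → I → Set C(X, ℝ) := fun E i => ⋃ e ∈ E, e '' V i
  have hPmono : ∀ E E' i, E ⊆ E' → P E i ⊆ P E' i := fun E E' i h =>
    biUnion_subset_biUnion_left h
  have hPcard : ∀ E : Set (W → C(X, ℝ)), #E ≤ μ → ∀ i, #(P E i) ≤ #(V i) := fun E hE i => by
    refine (mk_biUnion_le _ _).trans ((mul_le_mul' (hE.trans (hVμ i))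
      (ciSup_le' fun e => mk_image_le)).trans (mul_eq_self (hμ0.trans (hVμ i))).le)
  choose en hen using fun (E : Set (W → C(X, ℝ))) (i : I) => exists_image_cover (M (P E i)) (V i)
  obtain ⟨m, hm⟩ := exists_rec (fun (_ : Ω) (E : Set (W → C(X, ℝ))) => insert e0 (range (en E)))
  have hmc : ∀ ν, #(m ν) ≤ μ := fun ν => by
    rw [hm]
    refine mk_insert_le.trans (add_le_of_le hμ0 (mk_range_le.trans ?_) (one_le_aleph0.trans hμ0))
    rw [hI]; exact le_max_left _ _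
  let Ea : Set (W → C(X, ℝ)) := ⋃ ν, m ν
  have hEa : #Ea ≤ μ := (mk_iUnion_le _).trans ((mul_le_mul' (hΩ ▸ le_max_right _ _)
    (ciSup_le' hmc)).trans (mul_eq_self hμ0).le)
  let E : Ω → Set (W → C(X, ℝ)) := fun ν => ⋃ ξ ∈ Iio ν, m ξ
  have hEsub : ∀ ν, E ν ⊆ Ea := fun ν => iUnion₂_subset fun ξ _ => subset_iUnion m ξ
  let Φ : I → Set C(X, ℝ) := P Ea
  have hmono : Monotone Φ := fun a b hab =>
    iUnion₂_mono fun e _ => image_mono (hVmono hab)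
  have hcont : ∀ δ, IsLim δ → Φ δ ⊆ ⋃ i ∈ Iio δ, Φ i := fun δ hδ φ hφ => by
    obtain ⟨e, he, w, hw, rfl⟩ := mem_iUnion₂.1 hφ
    obtain ⟨i, hi, hw⟩ := mem_iUnion₂.1 (hVcont δ hδ hw)
    exact mem_iUnion₂.2 ⟨i, hi, mem_iUnion₂.2 ⟨e, he, w, hw, rfl⟩⟩
  have hgood : ∀ i, Sep (Φ i) (closure (τ (Φ i))) := by
    intro i x hx y hy hxy
    have h1 : Monotone fun ν => P (E ν) i := fun a b hab =>
      hPmono _ _ i (biUnion_subset_biUnion_left (Iio_subset_Iio hab))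
    have h2 : Φ i ⊆ ⋃ ν, P (E ν) i := fun φ hφ => by
      obtain ⟨e, he, hφ⟩ := mem_iUnion₂.1 hφ
      obtain ⟨ξ, hξ⟩ := mem_iUnion.1 he
      obtain ⟨b, hb⟩ := hΩbd {ξ} (countable_singleton ξ)
      exact mem_iUnion.2 ⟨b, mem_iUnion₂.2 ⟨e, mem_iUnion₂.2 ⟨ξ, hb ξ rfl, hξ⟩, hφ⟩⟩
    obtain ⟨ν1, h3⟩ := tight_chain hX hτ.fin hΩbd h1 h2 hx
    obtain ⟨ν2, h4⟩ := tight_chain hX hτ.fin hΩbd h1 h2 hy
    refine (hM (P (E (max ν1 ν2)) i)).2 x (hτ.closure_mono (h1 (le_max_left _ _)) h3) y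
      (hτ.closure_mono (h1 (le_max_right _ _)) h4) (hxy.mono ?_)
    refine (hen _ i ((hM _).1.trans (max_le (hPcard _
      ((mk_le_mk_of_subset (hEsub _)).trans hEa) i) (hμ0.trans (hVμ i))))).trans ?_
    refine subset_biUnion_of_mem (u := fun e : W → C(X, ℝ) => e '' V i) ?_
    refine mem_iUnion.2 ⟨max ν1 ν2, ?_⟩
    rw [hm]
    exact Or.inr ⟨i, rfl⟩
  have hsepU : Sep (⋃ i, Φ i) K := fun x hx y hy hxy => hs x hx y hy (hxy.mono fun φ hφ => by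
    obtain ⟨w, rfl⟩ := he0' hφ
    obtain ⟨i, hi⟩ := hVall w
    obtain ⟨ν⟩ := hΩbd.nonempty
    refine mem_iUnion.2 ⟨i, mem_iUnion₂.2 ⟨e0, mem_iUnion.2 ⟨ν, ?_⟩, w, hi, rfl⟩⟩
    rw [hm]
    exact mem_insert _ _)
  have hw : ∀ i, Win (closure (τ (Φ i))) := fun i => IH _
    ((hτ.fin.card_le (hμ0.trans (hVμ i)) (hPcard Ea hEa i)).trans_lt (hVκ i))
  rcases hlam.aleph0_le.eq_or_lt with h0 | h0
  · have : Countable I := mk_le_aleph0_iff.1 (by rw [hI, ← h0])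
    exact hτ.win_countable Φ hgood hw hsepU
  · have hbd : Bd I := fun S hS => hIb S ((le_aleph0_iff_set_countable.2 hS).trans_lt h0)
    obtain ⟨nxt, hnxt⟩ := hbd.exists_nxt
    have hch : Chain K τ Φ nxt := ⟨hX, hτ, hbd, hnxt, hmono, hcont, hgood, fun x hx =>
      tight_chain hX hτ.fin hbd hmono subset_rfl (hτ.mem_of_sep hsepU hx)⟩
    exact hch.win_sing hw fun y _ => IH _ (mk_range_le.trans_lt (hI ▸ hlt))

theorem win_all (hX : Split X) (κ : Cardinal) : ∀ {K : Set X}, IsClosed K →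
    ∀ {Ψ : Set C(X, ℝ)}, #Ψ ≤ κ → Sep Ψ K → Win K := by
  induction κ using WellFoundedLT.induction with
  | ind κ ih =>
    intro K hK Ψ hΨ hs
    rcases le_or_gt κ ℵ₀ with h0 | h0
    · exact Win.of_countable (le_aleph0_iff_set_countable.1 (hΨ.trans h0)) hs
    have IH : ∀ D : Set X, #D < κ → Win (closure D) := fun D hD => by
      obtain ⟨Φ, h1, h2⟩ := hX.mono D (le_max_right #D ℵ₀) (le_max_left _ _)
      exact ih _ (max_lt hD h0) isClosed_closure h1 h2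
    rcases isRegular_or_isSingular h0.le with h | h
    · exact win_regular hX hK h h0 hΨ hs IH
    · exact win_singular hX hK h hΨ hs IH

theorem exists_sep_fun {x y : X} (h : x ≠ y) : ∃ f : C(X, ℝ), f x ≠ f y := by
  obtain ⟨f, h1, h2, -⟩ := exists_continuous_zero_one_of_isClosed (isClosed_singleton (x := x))
    (isClosed_singleton (x := y)) (disjoint_singleton.2 h)
  exact ⟨f, by rw [h1 rfl, h2 rfl]; simp⟩

theorem Split.exists_LS (hX : Split X) : ∃ Z : Set C(X, ℝ), LS Z ∧ Sep Z univ := by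
  refine (win_all hX _ isClosed_univ (Ψ := univ) le_rfl fun x _ y _ h => ?_).exists_LS hX
    isClosed_univ
  by_contra hne
  obtain ⟨f, hf⟩ := exists_sep_fun hne
  exact hf (h f trivial)

end Pool.Agent.MP_353077_gt
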