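import Mathlib

open Set Filter Topology

namespace Pool.Agent.MP_353077_gt

/-- ultrafilter form of the Lindelof Sigma property of a subset -/
def UL {E : Type} [TopologicalSpace E] (Z : Set E) : Prop :=
  ∃ (ι : Type) (_ : Countable ι) (N : ι → Set E), ∀ g ∈ Z, ∀ U : Ultrafilter E,
    (∀ i, g ∈ N i → N i ∈ U) → ∃ z ∈ Z, (U : Filter E) ≤ 𝓝 z

variable {E E' : Type} [TopologicalSpace E] [TopologicalSpace E']

theorem UL.norm {Z : Set E} (h : UL Z) :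
    ∃ (ι : Type) (_ : Countable ι) (N : ι → Set E), (∀ i, N i ⊆ Z) ∧ (∃ i, N i = Z) ∧
      (∀ i j, ∃ k, N k = N i ∩ N j) ∧ ∀ g ∈ Z, ∀ U : Ultrafilter E,
      (∀ i, g ∈ N i → N i ∈ U) → ∃ z ∈ Z, (U : Filter E) ≤ 𝓝 z := by
  classical
  obtain ⟨ι, hι, N, hN⟩ := h
  refine ⟨Finset ι, inferInstance, fun s => Z ∩ ⋂ i ∈ s, N i, fun s => inter_subset_left,
    ⟨∅, by simp⟩, fun s t => ⟨s ∪ t, ?_⟩, fun g hg U hU => hN g hg U fun i hi => ?_⟩
  · ext x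
    simp only [Finset.mem_union, mem_inter_iff, mem_iInter]
    constructor
    · rintro ⟨h1, h2⟩
      exact ⟨⟨h1, fun i hi => h2 i (Or.inl hi)⟩, h1, fun i hi => h2 i (Or.inr hi)⟩
    · rintro ⟨⟨h1, h2⟩, -, h3⟩
      exact ⟨h1, fun i hi => hi.elim (h2 i) (h3 i)⟩
  · have := hU {i} ⟨hg, by simpa using hi⟩
    exact mem_of_superset this (fun x hx => by simpa using hx.2)

theorem UL.lift {A : Set E} (h : UL A) :
    ∃ (ι : Type) (_ : Countable ι) (M : ι → Set E), ∀ (F : Type) (R : E → F → Prop),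
      ∀ a ∈ A, ∀ U : Ultrafilter F, (∀ i, a ∈ M i → {e | ∃ b ∈ A ∩ M i, R b e} ∈ U) →
      ∃ W : Ultrafilter (E × F), (∀ᶠ p in (W : Filter (E × F)), p.1 ∈ A ∧ R p.1 p.2) ∧
        Filter.map Prod.snd (W : Filter (E × F)) = U ∧
        ∃ b ∈ A, Filter.map Prod.fst (W : Filter (E × F)) ≤ 𝓝 b := by
  obtain ⟨ι, hι, N, hsub, ⟨i0, hi0⟩, hint, hN⟩ := h.norm
  refine ⟨ι, hι, N, fun F R a ha U hU => ?_⟩
  let T : ι → Set (E × F) := fun i => {p | p.1 ∈ A ∩ N i ∧ R p.1 p.2}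
  let G : {i // a ∈ N i} → Filter (E × F) := fun i => 𝓟 (T i.1) ⊓ comap Prod.snd (U : Filter F)
  haveI : Nonempty {i // a ∈ N i} := ⟨⟨i0, hi0 ▸ ha⟩⟩
  have hdir : Directed (· ≥ ·) G := by
    intro i j
    obtain ⟨k, hk⟩ := hint i.1 j.1
    refine ⟨⟨k, hk ▸ ⟨i.2, j.2⟩⟩, ?_, ?_⟩
    · refine inf_le_inf_right _ (principal_mono.2 ?_)
      intro p hp
      exact ⟨⟨hp.1.1, (hk ▸ hp.1.2 : p.1 ∈ N i.1 ∩ N j.1).1⟩, hp.2⟩
    · refine inf_le_inf_right _ (principal_mono.2 ?_)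
      intro p hp
      exact ⟨⟨hp.1.1, (hk ▸ hp.1.2 : p.1 ∈ N i.1 ∩ N j.1).2⟩, hp.2⟩
  have hne : ∀ i, (G i).NeBot := by
    intro i
    rw [Filter.neBot_inf_comap_iff_map, map_principal]
    have h1 := hU i.1 i.2
    have h2 : Prod.snd '' T i.1 ∈ (U : Filter F) := by
      refine mem_of_superset h1 ?_
      rintro e ⟨b, hb, hR⟩
      exact ⟨(b, e), ⟨hb, hR⟩, rfl⟩
    rw [inf_comm, inf_eq_left.2 (le_principal_iff.2 h2)]
    infer_instance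
  haveI : (iInf G).NeBot := iInf_neBot_of_directed' hdir hne
  obtain ⟨W, hW⟩ := Ultrafilter.exists_le (iInf G)
  have hWT : ∀ i, a ∈ N i → T i ∈ (W : Filter (E × F)) := fun i hi =>
    le_principal_iff.1 ((hW.trans (iInf_le G ⟨i, hi⟩)).trans inf_le_left)
  have hW2 : (W : Filter (E × F)) ≤ comap Prod.snd (U : Filter F) :=
    (hW.trans (iInf_le G ⟨i0, hi0 ▸ ha⟩)).trans inf_le_right
  refine ⟨W, ?_, ?_, ?_⟩
  · exact mem_of_superset (hWT i0 (hi0 ▸ ha)) (fun p hp => ⟨hp.1.1, hp.2⟩)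
  · exact U.unique (map_le_iff_le_comap.2 hW2)
  · obtain ⟨b, hb, hlim⟩ := hN a ha (W.map Prod.fst) (fun i hi => by
      have := hWT i hi
      have h2 : Prod.fst ⁻¹' N i ∈ (W : Filter (E × F)) :=
        mem_of_superset this (fun p hp => hp.1.2)
      exact h2)
    exact ⟨b, hb, hlim⟩

theorem UL.image {A : Set E} (h : UL A) {f : E → E'} (hf : Continuous f) : UL (f '' A) := by
  obtain ⟨ι, hι, M, hM⟩ := h.lift
  refine ⟨ι, hι, fun i => {e | ∃ b ∈ A ∩ M i, f b = e}, ?_⟩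
  rintro _ ⟨a, ha, rfl⟩ U hU
  obtain ⟨W, h1, h2, b, hb, h3⟩ := hM E' (fun b e => f b = e) a ha U
    (fun i hi => hU i ⟨a, ⟨ha, hi⟩, rfl⟩)
  refine ⟨f b, ⟨b, hb, rfl⟩, ?_⟩
  rw [← h2]
  have h4 : Tendsto (fun p : E × E' => f p.1) W (𝓝 (f b)) := (hf.tendsto b).comp h3
  exact h4.congr' (h1.mono fun p hp => hp.2)

theorem UL.iUnion {ι : Type} [Countable ι] {A : ι → Set E} (h : ∀ i, UL (A i)) :
    UL (⋃ i, A i) := by
  choose κ hκ N hN using h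
  refine ⟨Σ i, κ i, inferInstance, fun p => N p.1 p.2, fun g hg U hU => ?_⟩
  obtain ⟨i, hi⟩ := mem_iUnion.1 hg
  obtain ⟨z, hz, h⟩ := hN i g hi U (fun j hj => hU ⟨i, j⟩ hj)
  exact ⟨z, mem_iUnion.2 ⟨i, hz⟩, h⟩

theorem UL.union {A B : Set E} (hA : UL A) (hB : UL B) : UL (A ∪ B) := by
  rw [union_eq_iUnion]
  refine UL.iUnion fun b => ?_
  cases b <;> simpa

theorem UL.empty : UL (∅ : Set E) :=
  ⟨Unit, inferInstance, fun _ => ∅, fun g hg => hg.elim⟩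

theorem UL.prod {A : Set E} {B : Set E'} (hA : UL A) (hB : UL B) : UL (A ×ˢ B) := by
  obtain ⟨ι, hι, N, hN⟩ := hA
  obtain ⟨κ, hκ, M, hM⟩ := hB
  refine ⟨ι ⊕ κ, inferInstance, Sum.elim (fun i => Prod.fst ⁻¹' N i) (fun j => Prod.snd ⁻¹' M j),
    fun g hg U hU => ?_⟩
  obtain ⟨a, ha, h1⟩ := hN g.1 hg.1 (U.map Prod.fst) (fun i hi => hU (Sum.inl i) hi)
  obtain ⟨b, hb, h2⟩ := hM g.2 hg.2 (U.map Prod.snd) (fun i hi => hU (Sum.inr i) hi)
  refine ⟨(a, b), ⟨ha, hb⟩, ?_⟩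
  rw [nhds_prod_eq]
  exact Filter.le_prod.2 ⟨h1, h2⟩

theorem UL.real : UL (univ : Set ℝ) := by
  refine ⟨ℕ, inferInstance, fun n => Icc (-(n : ℝ)) n, fun g _ U hU => ?_⟩
  obtain ⟨n, hn⟩ := exists_nat_ge |g|
  obtain ⟨z, -, hz⟩ := (isCompact_Icc (a := -(n : ℝ)) (b := n)).ultrafilter_le_nhds U
    (le_principal_iff.2 (hU n (abs_le.1 hn)))
  exact ⟨z, trivial, hz⟩

/-- uniform limits -/
theorem UL.unif {P : Type} {A : Set (P → ℝ)} (h : UL A) :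
    UL {g : P → ℝ | ∀ n : ℕ, ∃ a ∈ A, ∀ p, |a p - g p| ≤ 1 / ((n : ℝ) + 1)} := by
  obtain ⟨ι, hι, M, hM⟩ := h.lift
  refine ⟨ℕ × ι, inferInstance,
    fun q => {e | ∃ b ∈ A ∩ M q.2, ∀ p, |b p - e p| ≤ 1 / ((q.1 : ℝ) + 1)}, fun g hg U hU => ?_⟩
  have key : ∀ n : ℕ, ∃ b ∈ A, ∀ p, ∀ ε > 0,
      ∀ᶠ e in (U : Filter (P → ℝ)), |b p - e p| ≤ 1 / ((n : ℝ) + 1) + ε := by
    intro n
    obtain ⟨a, ha, hag⟩ := hg n
    obtain ⟨W, h1, h2, b, hb, h3⟩ := hM (P → ℝ)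
      (fun b e => ∀ p, |b p - e p| ≤ 1 / ((n : ℝ) + 1)) a ha U
      (fun i hi => hU (n, i) ⟨a, ⟨ha, hi⟩, hag⟩)
    refine ⟨b, hb, fun p ε hε => ?_⟩
    rw [← h2, eventually_map]
    have h4 : Tendsto (fun q : (P → ℝ) × (P → ℝ) => q.1 p) W (𝓝 (b p)) :=
      ((continuous_apply p).tendsto b).comp h3
    have h5 := (Metric.tendsto_nhds.1 h4) ε hε
    filter_upwards [h1, h5] with q hq1 hq2
    have h6 := hq1.2 p
    rw [Real.dist_eq] at hq2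
    have h7 : |b p - q.2 p| ≤ |q.1 p - q.2 p| + |q.1 p - b p| := by
      have := abs_sub_le (b p) (q.1 p) (q.2 p)
      rw [abs_sub_comm (b p) (q.1 p)] at this
      linarith
    linarith
  choose b hb hbU using key
  have hlim : ∀ p, ∃ r : ℝ, Tendsto (fun e : P → ℝ => e p) U (𝓝 r) := by
    intro p
    obtain ⟨r, -, hr⟩ := (isCompact_closedBall (b 0 p) 2).ultrafilter_le_nhds
      (U.map fun e : P → ℝ => e p) (le_principal_iff.2 (by
        have := hbU 0 p 1 one_pos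
        show (fun e : P → ℝ => e p) ⁻¹' (Metric.closedBall (b 0 p) 2) ∈ (U : Filter (P → ℝ))
        refine mem_of_superset this (fun e he => ?_)
        simp only [mem_setOf_eq, mem_preimage, Metric.mem_closedBall, Real.dist_eq] at he ⊢
        rw [abs_sub_comm]
        norm_num at he
        linarith))
    exact ⟨r, hr⟩
  choose z hz using hlim
  refine ⟨z, fun n => ⟨b n, hb n, fun p => ?_⟩, ?_⟩
  · refine le_of_forall_pos_le_add fun ε hε => ?_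
    have h1 : Tendsto (fun e : P → ℝ => |b n p - e p|) U (𝓝 |b n p - z p|) :=
      (tendsto_const_nhds.sub (hz p)).abs
    exact le_of_tendsto h1 (hbU n p ε hε)
  · exact tendsto_pi_nhds.2 hz

theorem UL.of_network {Y : Type} [TopologicalSpace Y] (N : ℕ → Set Y)
    (h : ∀ g : Y, ∃ C : Set Y, IsCompact C ∧ g ∈ C ∧
      ∀ U : Set Y, IsOpen U → C ⊆ U → ∃ n : ℕ, C ⊆ N n ∧ N n ⊆ U) : UL (univ : Set Y) := by
  refine ⟨ℕ, inferInstance, N, fun g _ U hU => ?_⟩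
  obtain ⟨C, hC, hg, hN⟩ := h g
  have h1 : (U : Filter Y) ≤ 𝓝ˢ C := by
    intro V hV
    obtain ⟨V', hV'o, hCV', hV'V⟩ := mem_nhdsSet.1 hV |>.imp fun V' h => (⟨h.2.1, h.2.2, h.1⟩ :
      IsOpen V' ∧ C ⊆ V' ∧ V' ⊆ V)
    obtain ⟨n, hn1, hn2⟩ := hN V' hV'o hCV'
    exact mem_of_superset (hU n (hn1 hg)) (hn2.trans hV'V)
  by_contra hcon
  have h2 : Disjoint (U : Filter Y) (𝓝ˢ C) := by
    rw [hC.disjoint_nhdsSet_right]
    intro x hx
    rw [Ultrafilter.disjoint_iff_not_le]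
    exact fun hle => hcon ⟨x, trivial, hle⟩
  exact (Ultrafilter.disjoint_iff_not_le.1 h2) h1

theorem UL.to_network {Y : Type} [TopologicalSpace Y] [RegularSpace Y] (h : UL (univ : Set Y)) :
    ∃ N : ℕ → Set Y, ∀ g : Y, ∃ C : Set Y, IsCompact C ∧ g ∈ C ∧
      ∀ U : Set Y, IsOpen U → C ⊆ U → ∃ n : ℕ, C ⊆ N n ∧ N n ⊆ U := by
  obtain ⟨ι, hι, N, -, ⟨i0, hi0⟩, hint, hN⟩ := h.norm
  haveI : Nonempty ι := ⟨i0⟩
  obtain ⟨e, he⟩ := exists_surjective_nat ι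
  refine ⟨fun n => closure (N (e n)), fun g => ?_⟩
  let G : {i // g ∈ N i} → Filter Y := fun i => 𝓟 (N i.1)
  haveI : Nonempty {i // g ∈ N i} := ⟨⟨i0, hi0 ▸ mem_univ g⟩⟩
  let C : Set Y := ⋂ i : {i // g ∈ N i}, closure (N i.1)
  have hCc : IsClosed C := isClosed_iInter fun i => isClosed_closure
  -- any filter compatible with all the sets has an ultrafilter converging to a point of C
  have key : ∀ F : Filter Y, (∀ i, g ∈ N i → (F ⊓ 𝓟 (N i)).NeBot) →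
      ∃ U : Ultrafilter Y, (U : Filter Y) ≤ F ∧ ∃ z ∈ C, (U : Filter Y) ≤ 𝓝 z := by
    intro F hF
    let G : {i // g ∈ N i} → Filter Y := fun i => F ⊓ 𝓟 (N i.1)
    have hdir : Directed (· ≥ ·) G := by
      intro i j
      obtain ⟨k, hk⟩ := hint i.1 j.1
      refine ⟨⟨k, hk ▸ ⟨i.2, j.2⟩⟩, ?_, ?_⟩
      · exact inf_le_inf_left _ (principal_mono.2 (by simp [hk]))
      · exact inf_le_inf_left _ (principal_mono.2 (by simp [hk]))
    haveI : (iInf G).NeBot := iInf_neBot_of_directed' hdir (fun i => hF i.1 i.2)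
    obtain ⟨U, hU⟩ := Ultrafilter.exists_le (iInf G)
    have hUN : ∀ i, g ∈ N i → N i ∈ U := fun i hi =>
      le_principal_iff.1 ((hU.trans (iInf_le G ⟨i, hi⟩)).trans inf_le_right)
    obtain ⟨z, -, hz⟩ := hN g trivial U hUN
    refine ⟨U, (hU.trans (iInf_le G ⟨i0, hi0 ▸ mem_univ g⟩)).trans inf_le_left, z, ?_, hz⟩
    refine mem_iInter.2 fun i => ?_
    exact mem_closure_iff_ultrafilter.2 ⟨U, hUN i.1 i.2, hz⟩
  have hC : IsCompact C := by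
    rw [isCompact_iff_ultrafilter_le_nhds]
    intro V hV
    let F : Filter Y :=
      { sets := {t | ∃ O, IsOpen O ∧ O ∈ (V : Filter Y) ∧ O ⊆ t}
        univ_sets := ⟨univ, isOpen_univ, univ_mem, subset_rfl⟩
        sets_of_superset := fun ⟨O, h1, h2, h3⟩ hst => ⟨O, h1, h2, h3.trans hst⟩
        inter_sets := fun ⟨O, h1, h2, h3⟩ ⟨O', h1', h2', h3'⟩ =>
          ⟨O ∩ O', h1.inter h1', inter_mem h2 h2', inter_subset_inter h3 h3'⟩ }
    obtain ⟨U, hUF, z, hz, hUz⟩ := key F (fun i hi => by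
      rw [inf_principal_neBot_iff]
      rintro t ⟨O, h1, h2, h3⟩
      obtain ⟨c, hcO, hcC⟩ := V.nonempty_of_mem (inter_mem h2 (le_principal_iff.1 hV))
      have hc : c ∈ closure (N i) := mem_iInter.1 hcC ⟨i, hi⟩
      obtain ⟨y, hy1, hy2⟩ := mem_closure_iff.1 hc O h1 hcO
      exact ⟨y, h3 hy1, hy2⟩)
    refine ⟨z, hz, (closed_nhds_basis z).ge_iff.2 fun W hW => ?_⟩
    by_contra hWV
    have h1 : Wᶜ ∈ (V : Filter Y) := Ultrafilter.compl_mem_iff_notMem.2 hWV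
    have h2 : Wᶜ ∈ (U : Filter Y) := hUF ⟨Wᶜ, hW.2.isOpen_compl, h1, subset_rfl⟩
    exact (Ultrafilter.compl_mem_iff_notMem.1 h2) (hUz hW.1)
  refine ⟨C, hC, mem_iInter.2 fun i => subset_closure i.2, fun U hU hCU => ?_⟩
  obtain ⟨V, hVo, hCV, hVU⟩ := hC.exists_isOpen_closure_subset (hU.mem_nhdsSet.2 hCU)
  by_contra hcon
  push Not at hcon
  obtain ⟨W, hW, z, hz, hWz⟩ := key (𝓟 Vᶜ) (fun i hi => by
    rw [inf_principal, principal_neBot_iff]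
    by_contra hemp
    obtain ⟨n, rfl⟩ := he i
    refine hcon n (iInter_subset (fun i : {i // g ∈ N i} => closure (N i.1)) ⟨_, hi⟩) ?_
    refine (closure_mono ?_).trans hVU
    intro y hy
    by_contra hyV
    exact hemp ⟨y, hyV, hy⟩)
  have h1 : V ∈ (W : Filter Y) := hWz (hVo.mem_nhds (hCV hz))
  have h2 : Vᶜ ∈ (W : Filter Y) := le_principal_iff.1 hW
  exact (Ultrafilter.compl_mem_iff_notMem.1 h2) h1

end Pool.Agent.MP_353077_gt
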